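import Pool.Agent.H.MP_58d537_lc.Cube

/-!
# Vector-valued functions of bounded degree on the cube

Hypercontractivity (`4` against `2`) and the bound on the total influence, by induction over the
active coordinates.
-/

set_option autoImplicit false

open Finset
open scoped InnerProductSpace

namespace Pool.Agent.H.MP_58d537_lc.Mem

open Pool.Agent.H.MP_58d537_lc

noncomputable section

variable {N : ℕ} {E : Type*} [NormedAddCommGroup E] [InnerProductSpace ℂ E]

/-- sign of a bit -/
def chi (j : Fin N) (x : Fin N → Bool) : ℂ := if x j then -1 else 1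

lemma norm_chi (j : Fin N) (x : Fin N → Bool) : ‖chi j x‖ = 1 := by
  unfold chi; split_ifs <;> simp

lemma chi_mul_self (j : Fin N) (x : Fin N → Bool) : chi j x * chi j x = 1 := by
  unfold chi; split_ifs <;> simp

lemma chi_flip_self (j : Fin N) (x : Fin N → Bool) : chi j (flip j x) = - chi j x := by
  unfold chi flip
  simp only [Function.update_self]
  cases x j <;> simp

lemma chi_flip_ne {i j : Fin N} (h : i ≠ j) (x : Fin N → Bool) : chi i (flip j x) = chi i x := by
  unfold chi flip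
  simp [h]

/-- discrete partial derivative -/
def pd (j : Fin N) (v : (Fin N → Bool) → E) (x : Fin N → Bool) : E :=
  (chi j x / 2) • (v x - v (flip j x))

/-- `v` has degree at most `n` -/
def Deg : ℕ → ((Fin N → Bool) → E) → Prop
  | 0, v => ∀ j x, v (flip j x) = v x
  | n + 1, v => ∀ j, Deg n (pd j v)

/-- even part -/
def ev (j : Fin N) (v : (Fin N → Bool) → E) (x : Fin N → Bool) : E :=
  (1 / 2 : ℂ) • (v x + v (flip j x))

lemma norm_pd (j : Fin N) (v : (Fin N → Bool) → E) (x : Fin N → Bool) :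
    ‖pd j v x‖ = ‖v x - v (flip j x)‖ / 2 := by
  unfold pd
  rw [norm_smul, norm_div, norm_chi]
  simp
  ring

lemma pd_flip_self (j : Fin N) (v : (Fin N → Bool) → E) (x : Fin N → Bool) :
    pd j v (flip j x) = pd j v x := by
  unfold pd
  rw [flip_flip, chi_flip_self, neg_div, neg_smul, ← smul_neg, neg_sub]

lemma pd_comp_flip_ne {i j : Fin N} (h : i ≠ j) (v : (Fin N → Bool) → E) :
    pd i (fun x => v (flip j x)) = fun x => pd i v (flip j x) := by
  funext x
  unfold pd
  rw [chi_flip_ne h, flip_comm i j]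

lemma pd_comp_flip_self (j : Fin N) (v : (Fin N → Bool) → E) :
    pd j (fun x => v (flip j x)) = fun x => (-1 : ℂ) • pd j v x := by
  funext x
  unfold pd
  beta_reduce
  rw [flip_flip, smul_smul, mul_comm (-1 : ℂ), ← smul_smul]
  congr 1
  simp

lemma pd_add (j : Fin N) (v w : (Fin N → Bool) → E) :
    pd j (fun x => v x + w x) = fun x => pd j v x + pd j w x := by
  funext x
  unfold pd
  beta_reduce
  rw [← smul_add, add_sub_add_comm]

lemma pd_smul (j : Fin N) (c : ℂ) (v : (Fin N → Bool) → E) :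
    pd j (fun x => c • v x) = fun x => c • pd j v x := by
  funext x
  unfold pd
  rw [← smul_sub, smul_comm]

lemma pd_of_inv {j : Fin N} {v : (Fin N → Bool) → E} (h : ∀ x, v (flip j x) = v x) :
    pd j v = fun _ => 0 := by
  funext x
  unfold pd
  rw [h, sub_self, smul_zero]

lemma pd_inv {i : Fin N} {v : (Fin N → Bool) → E} (h : ∀ x, v (flip i x) = v x) (j : Fin N)
    (x : Fin N → Bool) : pd j v (flip i x) = pd j v x := by
  by_cases hij : i = j
  · subst hij; exact pd_flip_self i v x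
  · unfold pd
    rw [chi_flip_ne (Ne.symm hij), h, flip_comm j i, h]

lemma ev_inv {i : Fin N} {v : (Fin N → Bool) → E} (h : ∀ x, v (flip i x) = v x) (j : Fin N)
    (x : Fin N → Bool) : ev j v (flip i x) = ev j v x := by
  unfold ev
  rw [h, flip_comm j i, h]

lemma ev_flip_self (j : Fin N) (v : (Fin N → Bool) → E) (x : Fin N → Bool) :
    ev j v (flip j x) = ev j v x := by
  unfold ev
  rw [flip_flip, add_comm]

lemma eq_ev_add_pd (j : Fin N) (v : (Fin N → Bool) → E) (x : Fin N → Bool) :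
    v x = ev j v x + chi j x • pd j v x := by
  unfold ev pd
  rw [smul_smul, mul_div_assoc', chi_mul_self, ← smul_add]
  rw [show v x + v (flip j x) + (v x - v (flip j x)) = (2 : ℂ) • v x by
    rw [two_smul]; abel]
  rw [smul_smul]
  norm_num

/-! ### closure properties -/

lemma Deg.zero_fun (n : ℕ) : Deg n (fun _ : Fin N → Bool => (0 : E)) := by
  induction n with
  | zero => intro j x; rfl
  | succ n ih =>
    intro j
    rw [pd_of_inv (fun _ => rfl)]
    exact ih

lemma Deg.of_inv {v : (Fin N → Bool) → E} (h : ∀ j x, v (flip j x) = v x) (n : ℕ) : Deg n v := by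
  cases n with
  | zero => exact h
  | succ n =>
    intro j
    rw [pd_of_inv (h j)]
    exact Deg.zero_fun n

lemma Deg.const (n : ℕ) (c : E) : Deg n (fun _ : Fin N → Bool => c) :=
  Deg.of_inv (fun _ _ => rfl) n

lemma Deg.mono_succ {n : ℕ} {v : (Fin N → Bool) → E} (h : Deg n v) : Deg (n + 1) v := by
  induction n generalizing v with
  | zero => exact Deg.of_inv h 1
  | succ n ih => exact fun j => ih (h j)

lemma Deg.add {n : ℕ} {v w : (Fin N → Bool) → E} (hv : Deg n v) (hw : Deg n w) :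
    Deg n (fun x => v x + w x) := by
  induction n generalizing v w with
  | zero => intro j x; simp only [hv j x, hw j x]
  | succ n ih => intro j; rw [pd_add]; exact ih (hv j) (hw j)

lemma Deg.smul {n : ℕ} {v : (Fin N → Bool) → E} (hv : Deg n v) (c : ℂ) :
    Deg n (fun x => c • v x) := by
  induction n generalizing v with
  | zero => intro j x; simp only [hv j x]
  | succ n ih => intro j; rw [pd_smul]; exact ih (hv j)

lemma Deg.comp_flip {n : ℕ} {v : (Fin N → Bool) → E} (hv : Deg n v) (i : Fin N) :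
    Deg n (fun x => v (flip i x)) := by
  induction n generalizing v with
  | zero => intro j x; simp only [hv i]; exact hv j x
  | succ n ih =>
    intro j
    by_cases h : j = i
    · subst h
      rw [pd_comp_flip_self]
      exact (hv j).smul _
    · rw [pd_comp_flip_ne h]
      exact ih (hv j)

lemma Deg.lin {F : Type*} [NormedAddCommGroup F] [InnerProductSpace ℂ F] {n : ℕ}
    {v : (Fin N → Bool) → E} (hv : Deg n v) (A : E →L[ℂ] F) : Deg n (fun x => A (v x)) := by
  induction n generalizing v with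
  | zero => intro j x; simp only [hv j x]
  | succ n ih =>
    intro j
    have : pd j (fun x => A (v x)) = fun x => A (pd j v x) := by
      funext x
      unfold pd
      rw [map_smul, map_sub]
    rw [this]
    exact ih (hv j)

lemma Deg.ev {n : ℕ} {v : (Fin N → Bool) → E} (hv : Deg n v) (i : Fin N) :
    Deg n (ev i v) := (hv.add (hv.comp_flip i)).smul _

/-! ### splitting off one coordinate -/

lemma split2 (j : Fin N) (v : (Fin N → Bool) → E) (x : Fin N → Bool) :
    (‖v x‖ ^ 2 + ‖v (flip j x)‖ ^ 2) / 2 = ‖ev j v x‖ ^ 2 + ‖pd j v x‖ ^ 2 := by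
  have h1 : ‖ev j v x‖ = ‖v x + v (flip j x)‖ / 2 := by
    unfold ev
    rw [norm_smul]
    simp
    ring
  rw [h1, norm_pd]
  have := parallelogram_law_with_norm ℂ (v x) (v (flip j x))
  nlinarith [this]

lemma split4 (j : Fin N) (v : (Fin N → Bool) → E) (x : Fin N → Bool) :
    (‖v x‖ ^ 4 + ‖v (flip j x)‖ ^ 4) / 2 ≤
      ‖ev j v x‖ ^ 4 + 6 * (‖ev j v x‖ ^ 2 * ‖pd j v x‖ ^ 2) + ‖pd j v x‖ ^ 4 := by
  set s := ev j v x with hs
  set e := chi j x • pd j v x with he
  have hne : ‖e‖ = ‖pd j v x‖ := by rw [he, norm_smul, norm_chi, one_mul]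
  have ha : v x = s + e := eq_ev_add_pd j v x
  have hb : v (flip j x) = s - e := by
    have := eq_ev_add_pd j v (flip j x)
    rw [ev_flip_self, pd_flip_self, chi_flip_self, neg_smul, ← sub_eq_add_neg] at this
    exact this
  have h1 : ‖v x‖ ^ 2 = ‖s‖ ^ 2 + 2 * RCLike.re ⟪s, e⟫_ℂ + ‖e‖ ^ 2 := by
    rw [ha]; exact norm_add_sq s e
  have h2 : ‖v (flip j x)‖ ^ 2 = ‖s‖ ^ 2 - 2 * RCLike.re ⟪s, e⟫_ℂ + ‖e‖ ^ 2 := by
    rw [hb]; exact norm_sub_sq s e
  have h3 : (RCLike.re ⟪s, e⟫_ℂ) ^ 2 ≤ ‖s‖ ^ 2 * ‖e‖ ^ 2 := by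
    have h4 : |RCLike.re ⟪s, e⟫_ℂ| ≤ ‖s‖ * ‖e‖ :=
      (RCLike.abs_re_le_norm _).trans (norm_inner_le_norm s e)
    calc (RCLike.re ⟪s, e⟫_ℂ) ^ 2 = |RCLike.re ⟪s, e⟫_ℂ| ^ 2 := (sq_abs _).symm
      _ ≤ (‖s‖ * ‖e‖) ^ 2 := by gcongr
      _ = ‖s‖ ^ 2 * ‖e‖ ^ 2 := by ring
  have e4 : ‖v x‖ ^ 4 = (‖v x‖ ^ 2) ^ 2 := by ring
  have e5 : ‖v (flip j x)‖ ^ 4 = (‖v (flip j x)‖ ^ 2) ^ 2 := by ring
  rw [e4, e5, h1, h2, ← hne]
  nlinarith [h3]

lemma avg_split2 (j : Fin N) (v : (Fin N → Bool) → E) :
    avg (fun x => ‖v x‖ ^ 2) = avg (fun x => ‖ev j v x‖ ^ 2) + avg (fun x => ‖pd j v x‖ ^ 2) := by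
  have h1 : avg (fun x => ‖v x‖ ^ 2) = avg (fun x => (‖v x‖ ^ 2 + ‖v (flip j x)‖ ^ 2) / 2) := by
    have h2 : (fun x => (‖v x‖ ^ 2 + ‖v (flip j x)‖ ^ 2) / 2) =
        fun x => 1 / 2 * (‖v x‖ ^ 2 + ‖v (flip j x)‖ ^ 2) := by funext x; ring
    rw [h2, avg_const_mul, avg_add, avg_flip j (fun x => ‖v x‖ ^ 2)]
    ring
  rw [h1]
  simp only [split2]
  rw [avg_add]

lemma avg_split4 (j : Fin N) (v : (Fin N → Bool) → E) :
    avg (fun x => ‖v x‖ ^ 4) ≤ avg (fun x => ‖ev j v x‖ ^ 4) +
      6 * avg (fun x => ‖ev j v x‖ ^ 2 * ‖pd j v x‖ ^ 2) + avg (fun x => ‖pd j v x‖ ^ 4) := by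
  have h1 : avg (fun x => ‖v x‖ ^ 4) = avg (fun x => (‖v x‖ ^ 4 + ‖v (flip j x)‖ ^ 4) / 2) := by
    have h2 : (fun x => (‖v x‖ ^ 4 + ‖v (flip j x)‖ ^ 4) / 2) =
        fun x => 1 / 2 * (‖v x‖ ^ 4 + ‖v (flip j x)‖ ^ 4) := by funext x; ring
    rw [h2, avg_const_mul, avg_add, avg_flip j (fun x => ‖v x‖ ^ 4)]
    ring
  rw [h1]
  refine (avg_mono fun x => split4 j v x).trans (le_of_eq ?_)
  rw [avg_add, avg_add, avg_const_mul]

/-- a function invariant under all flips is constant -/
lemma vconst_of_flip {v : (Fin N → Bool) → E} (h : ∀ j x, v (flip j x) = v x)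
    (x y : Fin N → Bool) : v x = v y := by
  have : ‖v x - v y‖ = 0 := by
    have h1 := const_of_flip (f := fun z => ‖v z - v y‖) (fun j z => by simp only [h j z]) x y
    simpa using h1
  exact sub_eq_zero.mp (norm_eq_zero.mp this)

/-- **Hypercontractivity**: fourth moment against second moment. -/
theorem avg_pow4_le_aux (J : Finset (Fin N)) : ∀ (D : ℕ) (v : (Fin N → Bool) → E),
    (∀ i, i ∉ J → ∀ x, v (flip i x) = v x) → Deg D v →
    avg (fun x => ‖v x‖ ^ 4) ≤ 9 ^ D * (avg (fun x => ‖v x‖ ^ 2)) ^ 2 := by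
  classical
  have hconst : ∀ (D : ℕ) (v : (Fin N → Bool) → E), (∀ j x, v (flip j x) = v x) →
      avg (fun x => ‖v x‖ ^ 4) ≤ 9 ^ D * (avg (fun x => ‖v x‖ ^ 2)) ^ 2 := by
    intro D v h
    have hc : ∀ x, v x = v (fun _ => true) := fun x => vconst_of_flip h x _
    simp only [hc]
    rw [avg_const, avg_const]
    have : (1 : ℝ) ≤ 9 ^ D := one_le_pow₀ (by norm_num)
    have h4 : 0 ≤ ‖v (fun _ => true)‖ ^ 4 := by positivity
    calc ‖v (fun _ => true)‖ ^ 4 = 1 * ‖v (fun _ => true)‖ ^ 4 := (one_mul _).symm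
      _ ≤ 9 ^ D * ‖v (fun _ => true)‖ ^ 4 := mul_le_mul_of_nonneg_right this h4
      _ = _ := by ring
  induction J using Finset.induction_on with
  | empty =>
    intro D v h _
    exact hconst D v (fun j => h j (Finset.notMem_empty j))
  | insert j J hj ih =>
    intro D v h hD
    cases D with
    | zero => exact hconst 0 v hD
    | succ D =>
      have inv_ev : ∀ i, i ∉ J → ∀ x, ev j v (flip i x) = ev j v x := by
        intro i hi x
        by_cases hij : i = j
        · subst hij; exact ev_flip_self i v x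
        · exact ev_inv (h i (by simp [hij, hi])) j x
      have inv_pd : ∀ i, i ∉ J → ∀ x, pd j v (flip i x) = pd j v x := by
        intro i hi x
        by_cases hij : i = j
        · subst hij; exact pd_flip_self i v x
        · exact pd_inv (h i (by simp [hij, hi])) j x
      have i1 := ih (D + 1) (ev j v) inv_ev (Deg.ev hD j)
      have i2 := ih D (pd j v) inv_pd (hD j)
      have hs := avg_split4 j v
      have h2 := avg_split2 j v
      set A := avg (fun x => ‖ev j v x‖ ^ 2) with hA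
      set B := avg (fun x => ‖pd j v x‖ ^ 2) with hB
      have hA0 : 0 ≤ A := avg_nonneg fun x => by positivity
      have hB0 : 0 ≤ B := avg_nonneg fun x => by positivity
      have hcs : (avg (fun x => ‖ev j v x‖ ^ 2 * ‖pd j v x‖ ^ 2)) ^ 2 ≤
          avg (fun x => ‖ev j v x‖ ^ 4) * avg (fun x => ‖pd j v x‖ ^ 4) := by
        have := avg_mul_sq_le (fun x => ‖ev j v x‖ ^ 2) (fun x => ‖pd j v x‖ ^ 2)
        simp only [← pow_mul] at this
        exact this
      set C := avg (fun x => ‖ev j v x‖ ^ 2 * ‖pd j v x‖ ^ 2) with hC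
      set A4 := avg (fun x => ‖ev j v x‖ ^ 4) with hA4
      set B4 := avg (fun x => ‖pd j v x‖ ^ 4) with hB4
      have hC0 : 0 ≤ C := avg_nonneg fun x => by positivity
      have hB40 : 0 ≤ B4 := avg_nonneg fun x => by positivity
      have h9 : (0 : ℝ) < 9 ^ D := by positivity
      have hC2 : C ≤ 3 * 9 ^ D * (A * B) := by
        apply le_of_sq_le_sq _ (by positivity)
        calc C ^ 2 ≤ A4 * B4 := hcs
          _ ≤ (9 ^ (D + 1) * A ^ 2) * (9 ^ D * B ^ 2) := by gcongr
          _ = (3 * 9 ^ D * (A * B)) ^ 2 := by ring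
      rw [h2]
      calc avg (fun x => ‖v x‖ ^ 4) ≤ A4 + 6 * C + B4 := hs
        _ ≤ 9 ^ (D + 1) * A ^ 2 + 6 * (3 * 9 ^ D * (A * B)) + 9 ^ D * B ^ 2 := by
            gcongr
        _ ≤ 9 ^ (D + 1) * (A + B) ^ 2 := by
            have : 9 ^ D * B ^ 2 ≤ 9 ^ (D + 1) * B ^ 2 := by
              have : (9 : ℝ) ^ D ≤ 9 ^ (D + 1) := by
                rw [pow_succ]; nlinarith
              gcongr
            have h3 : 9 ^ (D + 1) * (A + B) ^ 2 -
                (9 ^ (D + 1) * A ^ 2 + 6 * (3 * 9 ^ D * (A * B)) + 9 ^ D * B ^ 2) =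
                9 ^ (D + 1) * B ^ 2 - 9 ^ D * B ^ 2 := by ring
            linarith

theorem avg_pow4_le {D : ℕ} {v : (Fin N → Bool) → E} (hD : Deg D v) :
    avg (fun x => ‖v x‖ ^ 4) ≤ 9 ^ D * (avg (fun x => ‖v x‖ ^ 2)) ^ 2 :=
  avg_pow4_le_aux univ D v (fun i hi => absurd (Finset.mem_univ i) hi) hD

/-- **Total influence** of a function of degree at most `D`. -/
theorem sum_pd_le_aux (J : Finset (Fin N)) : ∀ (D : ℕ) (v : (Fin N → Bool) → E),
    (∀ i, i ∉ J → ∀ x, v (flip i x) = v x) → Deg D v →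
    ∑ i, avg (fun x => ‖pd i v x‖ ^ 2) ≤ D * avg (fun x => ‖v x‖ ^ 2) := by
  classical
  have hconst : ∀ (D : ℕ) (v : (Fin N → Bool) → E), (∀ j x, v (flip j x) = v x) →
      ∑ i, avg (fun x => ‖pd i v x‖ ^ 2) ≤ D * avg (fun x => ‖v x‖ ^ 2) := by
    intro D v h
    have : ∀ i, pd i v = fun _ => 0 := fun i => pd_of_inv (h i)
    simp only [this, norm_zero]
    have h0 : avg (fun _ : Fin N → Bool => (0 : ℝ) ^ 2) = 0 := by rw [avg_const]; ring
    rw [h0, Finset.sum_const_zero]
    exact mul_nonneg (Nat.cast_nonneg _) (avg_nonneg fun x => by positivity)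
  induction J using Finset.induction_on with
  | empty =>
    intro D v h _
    exact hconst D v (fun j => h j (Finset.notMem_empty j))
  | insert j J hj ih =>
    intro D v h hD
    cases D with
    | zero => exact hconst 0 v hD
    | succ D =>
      have inv_ev : ∀ i, i ∉ J → ∀ x, ev j v (flip i x) = ev j v x := by
        intro i hi x
        by_cases hij : i = j
        · subst hij; exact ev_flip_self i v x
        · exact ev_inv (h i (by simp [hij, hi])) j x
      have inv_pd : ∀ i, i ∉ J → ∀ x, pd j v (flip i x) = pd j v x := by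
        intro i hi x
        by_cases hij : i = j
        · subst hij; exact pd_flip_self i v x
        · exact pd_inv (h i (by simp [hij, hi])) j x
      have i1 := ih (D + 1) (ev j v) inv_ev (Deg.ev hD j)
      have i2 := ih D (pd j v) inv_pd (hD j)
      have key : ∀ i, avg (fun x => ‖pd i v x‖ ^ 2) =
          (if i = j then avg (fun x => ‖pd j v x‖ ^ 2) else 0) +
            (avg (fun x => ‖pd i (ev j v) x‖ ^ 2) + avg (fun x => ‖pd i (pd j v) x‖ ^ 2)) := by
        intro i
        by_cases hij : i = j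
        · subst hij
          have e1 : pd i (ev i v) = fun _ => 0 := pd_of_inv (ev_flip_self i v)
          have e2 : pd i (pd i v) = fun _ => 0 := pd_of_inv (pd_flip_self i v)
          have h0 : avg (fun _ : Fin N → Bool => ‖(0 : E)‖ ^ 2) = 0 := by
            rw [norm_zero, avg_const]; ring
          simp only [e1, e2, h0, if_true, add_zero]
        · rw [if_neg hij, zero_add, avg_split2 j (pd i v)]
          have e1 : ev j (pd i v) = pd i (ev j v) := by
            funext x
            unfold ev pd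
            rw [chi_flip_ne hij, flip_comm i j, ← smul_add, smul_comm, ← smul_sub]
            congr 2
            abel
          have e2 : pd j (pd i v) = pd i (pd j v) := by
            funext x
            unfold pd
            rw [chi_flip_ne hij, chi_flip_ne (Ne.symm hij), flip_comm i j, ← smul_sub,
              ← smul_sub, smul_comm]
            congr 2
            abel
          rw [e1, e2]
      rw [Finset.sum_congr rfl (fun i _ => key i)]
      rw [Finset.sum_add_distrib, Finset.sum_add_distrib, avg_split2 j v]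
      rw [Finset.sum_ite_eq' univ j, if_pos (Finset.mem_univ j)]
      push_cast at i1 ⊢
      nlinarith [i1, i2]

theorem sum_pd_le {D : ℕ} {v : (Fin N → Bool) → E} (hD : Deg D v) :
    ∑ i, avg (fun x => ‖pd i v x‖ ^ 2) ≤ D * avg (fun x => ‖v x‖ ^ 2) :=
  sum_pd_le_aux univ D v (fun i hi => absurd (Finset.mem_univ i) hi) hD

end

end Pool.Agent.H.MP_58d537_lc.Mem
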