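import Pool.Agent.H.MP_58d537_lc.Cube

/-!
# Smooth operator-valued functions on the cube

The acceptance operator of a quantum query algorithm, as a function of the oracle, changes little
in total when one bit of the oracle is flipped; the total is controlled by the number of queries.
-/

set_option autoImplicit false

open Finset
open scoped InnerProductSpace

namespace Pool.Agent.H.MP_58d537_lc.Mem

open Pool.Agent.H.MP_58d537_lc

noncomputable section

variable {N : ℕ} {E F : Type*} [NormedAddCommGroup E] [InnerProductSpace ℂ E] [CompleteSpace E]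
  [NormedAddCommGroup F] [InnerProductSpace ℂ F] [CompleteSpace F]

/-- square of a Hilbert seminorm (in the only form needed) -/
structure Quad {E : Type*} [NormedAddCommGroup E] [InnerProductSpace ℂ E] (q : E → ℝ) : Prop where
  nonneg : ∀ w, 0 ≤ q w
  comb : ∀ (n : ℕ) (c : Fin n → ℂ) (w : Fin n → E),
    q (∑ a, c a • w a) ≤ (∑ a, ‖c a‖ ^ 2) * ∑ a, q (w a)

omit [CompleteSpace E] [CompleteSpace F] in
lemma Quad.normSq (B : E →L[ℂ] F) : Quad (fun w => ‖B w‖ ^ 2) where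
  nonneg w := by positivity
  comb n c w := by
    have h1 : ‖B (∑ a, c a • w a)‖ ≤ ∑ a, ‖c a‖ * ‖B (w a)‖ := by
      rw [map_sum]
      refine (norm_sum_le _ _).trans (le_of_eq ?_)
      apply Finset.sum_congr rfl
      intro a _
      rw [map_smul, norm_smul]
    calc ‖B (∑ a, c a • w a)‖ ^ 2 ≤ (∑ a, ‖c a‖ * ‖B (w a)‖) ^ 2 := by gcongr
      _ ≤ _ := Finset.sum_mul_sq_le_sq_mul_sq _ _ _

omit [CompleteSpace E] in
lemma Quad.zero : Quad (fun _ : E => (0 : ℝ)) where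
  nonneg _ := le_rfl
  comb n c w := by simp

omit [CompleteSpace E] in
lemma Quad.add {q r : E → ℝ} (hq : Quad q) (hr : Quad r) : Quad (fun w => q w + r w) where
  nonneg w := add_nonneg (hq.nonneg w) (hr.nonneg w)
  comb n c w := by
    rw [Finset.sum_add_distrib, mul_add]
    exact add_le_add (hq.comb n c w) (hr.comb n c w)

omit [CompleteSpace E] in
lemma Quad.sum {ι : Type*} (s : Finset ι) {q : ι → E → ℝ} (hq : ∀ i, Quad (q i)) :
    Quad (fun w => ∑ i ∈ s, q i w) where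
  nonneg w := Finset.sum_nonneg fun i _ => (hq i).nonneg w
  comb n c w := by
    rw [Finset.sum_comm, Finset.mul_sum]
    exact Finset.sum_le_sum fun i _ => (hq i).comb n c w

omit [CompleteSpace E] [CompleteSpace F] in
lemma Quad.comp {q : F → ℝ} (hq : Quad q) (A : E →L[ℂ] F) : Quad (fun w => q (A w)) where
  nonneg w := hq.nonneg _
  comb n c w := by
    have := hq.comb n c (fun a => A (w a))
    rw [map_sum]
    simpa only [map_smul] using this

/-- smoothness of an operator-valued function on the cube -/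
structure Smooth {E : Type*} [NormedAddCommGroup E] [InnerProductSpace ℂ E] (L : ℝ)
    (H : (Fin N → Bool) → (E →L[ℂ] E)) : Prop where
  symm : ∀ x u w, ⟪H x u, w⟫_ℂ = ⟪u, H x w⟫_ℂ
  bdd : ∀ x w, ‖H x w‖ ≤ ‖w‖
  ex : ∃ q : Fin N → (Fin N → Bool) → E → ℝ, (∀ j x, Quad (q j x)) ∧
    (∀ x w, ∑ j, q j x w ≤ L * ‖w‖ ^ 2) ∧
    ∀ j x u w, ‖⟪u, H x w⟫_ℂ - ⟪u, H (flip j x) w⟫_ℂ‖ ≤ q j (flip j x) u + q j x w

omit [CompleteSpace E] in
lemma bdd_of_form {A : E →L[ℂ] E} (h : ∀ u w, ‖⟪u, A w⟫_ℂ‖ ≤ ‖u‖ * ‖w‖) (w : E) :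
    ‖A w‖ ≤ ‖w‖ := by
  have h1 := h (A w) w
  rw [inner_self_eq_norm_sq_to_K, norm_pow, RCLike.norm_ofReal, abs_norm] at h1
  by_cases h0 : ‖A w‖ = 0
  · rw [h0]; exact norm_nonneg w
  · have : 0 < ‖A w‖ := lt_of_le_of_ne (norm_nonneg _) (Ne.symm h0)
    nlinarith

omit [CompleteSpace E] in
/-- constant `0` or `1` -/
lemma Smooth.const (b : Bool) :
    Smooth (N := N) (E := E) 0 (fun _ => if b then ContinuousLinearMap.id ℂ E else 0) where
  symm x u w := by cases b <;> simp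
  bdd x w := by cases b <;> simp
  ex := by
    refine ⟨fun _ _ _ => 0, fun _ _ => Quad.zero, fun x w => by simp, fun j x u w => by simp⟩

/-- measurement: sum over the outcomes -/
lemma Smooth.meas {ι : Type*} [Fintype ι] {L : ℝ} (M : ι → (E →L[ℂ] F))
    (hM : ∀ w, ∑ i, ‖M i w‖ ^ 2 ≤ ‖w‖ ^ 2) {H : ι → (Fin N → Bool) → (F →L[ℂ] F)}
    (hL : 0 ≤ L) (hH : ∀ i, Smooth L (H i)) :
    Smooth L (fun x => ∑ i, (ContinuousLinearMap.adjoint (M i)).comp ((H i x).comp (M i))) := by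
  have hform : ∀ x u w, ⟪u, (∑ i, (ContinuousLinearMap.adjoint (M i)).comp
      ((H i x).comp (M i))) w⟫_ℂ = ∑ i, ⟪M i u, H i x (M i w)⟫_ℂ := by
    intro x u w
    rw [_root_.sum_apply, inner_sum]
    apply Finset.sum_congr rfl
    intro i _
    simp only [ContinuousLinearMap.comp_apply, ContinuousLinearMap.adjoint_inner_right]
  choose q hq1 hq2 hq3 using fun i => (hH i).ex
  refine ⟨?_, ?_, ?_⟩
  · intro x u w
    rw [hform, _root_.sum_apply, sum_inner]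
    apply Finset.sum_congr rfl
    intro i _
    simp only [ContinuousLinearMap.comp_apply, ContinuousLinearMap.adjoint_inner_left]
    exact (hH i).symm x _ _
  · intro x w
    apply bdd_of_form
    intro u w
    rw [hform]
    calc ‖∑ i, ⟪M i u, H i x (M i w)⟫_ℂ‖ ≤ ∑ i, ‖M i u‖ * ‖M i w‖ := by
          refine (norm_sum_le _ _).trans (Finset.sum_le_sum fun i _ => ?_)
          refine (norm_inner_le_norm _ _).trans ?_
          exact mul_le_mul_of_nonneg_left ((hH i).bdd x _) (norm_nonneg _)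
      _ ≤ Real.sqrt (∑ i, ‖M i u‖ ^ 2) * Real.sqrt (∑ i, ‖M i w‖ ^ 2) :=
          Real.sum_mul_le_sqrt_mul_sqrt _ _ _
      _ ≤ Real.sqrt (‖u‖ ^ 2) * Real.sqrt (‖w‖ ^ 2) := by
          gcongr
          · exact hM u
          · exact hM w
      _ = ‖u‖ * ‖w‖ := by rw [Real.sqrt_sq (norm_nonneg _), Real.sqrt_sq (norm_nonneg _)]
  · refine ⟨fun j x w => ∑ i, q i j x (M i w), ?_, ?_, ?_⟩
    · intro j x
      exact Quad.sum univ fun i => (hq1 i j x).comp (M i)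
    · intro x w
      rw [Finset.sum_comm]
      calc ∑ i, ∑ j, q i j x (M i w) ≤ ∑ i, L * ‖M i w‖ ^ 2 :=
            Finset.sum_le_sum fun i _ => hq2 i x _
        _ = L * ∑ i, ‖M i w‖ ^ 2 := by rw [Finset.mul_sum]
        _ ≤ L * ‖w‖ ^ 2 := mul_le_mul_of_nonneg_left (hM w) hL
    · intro j x u w
      rw [hform, hform, ← Finset.sum_sub_distrib, ← Finset.sum_add_distrib]
      exact (norm_sum_le _ _).trans (Finset.sum_le_sum fun i _ => hq3 i j x _ _)

/-- a query: oracle reflections and query projections -/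
structure QO (N : ℕ) (E : Type*) [NormedAddCommGroup E] [InnerProductSpace ℂ E] where
  /-- oracle -/
  O : (Fin N → Bool) → (E →L[ℂ] E)
  /-- query projections -/
  P : Fin N → (E →L[ℂ] E)
  Osymm : ∀ x u w, ⟪O x u, w⟫_ℂ = ⟪u, O x w⟫_ℂ
  Onorm : ∀ x u, ‖O x u‖ = ‖u‖
  Psymm : ∀ j u w, ⟪P j u, w⟫_ℂ = ⟪u, P j w⟫_ℂ
  Pidem : ∀ j u, P j (P j u) = P j u
  query : ∀ j x u, O (flip j x) u = O x u - (2 : ℂ) • P j (O x u)
  weight : ∀ u, ∑ j, ‖P j u‖ ^ 2 ≤ ‖u‖ ^ 2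

omit [CompleteSpace E] in
lemma QO.norm_flip (A : QO N E) (j : Fin N) (x : Fin N → Bool) (u : E) :
    ‖A.P j (A.O (flip j x) u)‖ = ‖A.P j (A.O x u)‖ := by
  rw [A.query, map_sub, map_smul, A.Pidem, two_smul, sub_add_eq_sub_sub, sub_self, zero_sub,
    norm_neg]

omit [CompleteSpace E] in
lemma Smooth.query {L : ℝ} (A : QO N E) {H : (Fin N → Bool) → (E →L[ℂ] E)} (hH : Smooth L H) :
    Smooth (L + 2) (fun x => (A.O x).comp ((H x).comp (A.O x))) := by
  obtain ⟨q, hq1, hq2, hq3⟩ := hH.ex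
  refine ⟨?_, ?_, ?_⟩
  · intro x u w
    simp only [ContinuousLinearMap.comp_apply]
    rw [A.Osymm, hH.symm, A.Osymm]
  · intro x w
    simp only [ContinuousLinearMap.comp_apply]
    rw [A.Onorm]
    exact (hH.bdd x _).trans (le_of_eq (A.Onorm x w))
  · refine ⟨fun j x w => (‖A.P j (A.O x w)‖ ^ 2 + ‖A.P j (H x (A.O x w))‖ ^ 2) +
      q j x (A.O x w), ?_, ?_, ?_⟩
    · intro j x
      have h1 : Quad (fun w => ‖A.P j (A.O x w)‖ ^ 2) := Quad.normSq ((A.P j).comp (A.O x))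
      have h2 : Quad (fun w => ‖A.P j (H x (A.O x w))‖ ^ 2) :=
        Quad.normSq ((A.P j).comp ((H x).comp (A.O x)))
      exact (h1.add h2).add ((hq1 j x).comp (A.O x))
    · intro x w
      rw [Finset.sum_add_distrib, Finset.sum_add_distrib]
      have h1 := A.weight (A.O x w)
      have h2 := A.weight (H x (A.O x w))
      have h3 := hq2 x (A.O x w)
      have h4 : ‖H x (A.O x w)‖ ≤ ‖w‖ := (hH.bdd x _).trans (le_of_eq (A.Onorm x w))
      rw [A.Onorm] at h1 h3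
      have h5 : ‖H x (A.O x w)‖ ^ 2 ≤ ‖w‖ ^ 2 := by gcongr
      nlinarith
    · intro j x u w
      set a := A.O x u with ha
      set a' := A.O (flip j x) u with ha'
      set b := A.O x w with hb
      set b' := A.O (flip j x) w with hb'
      have e1 : a - a' = (2 : ℂ) • A.P j a := by
        rw [ha', ha, A.query]; abel
      have e2 : b - b' = (2 : ℂ) • A.P j b := by
        rw [hb', hb, A.query]; abel
      have e3 : ⟪u, (A.O x).comp ((H x).comp (A.O x)) w⟫_ℂ = ⟪a, H x b⟫_ℂ := by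
        simp only [ContinuousLinearMap.comp_apply]
        rw [ha, A.Osymm]
      have e4 : ⟪u, (A.O (flip j x)).comp ((H (flip j x)).comp (A.O (flip j x))) w⟫_ℂ =
          ⟪a', H (flip j x) b'⟫_ℂ := by
        simp only [ContinuousLinearMap.comp_apply]
        rw [ha', A.Osymm]
      have e5 : ⟪a, H x b⟫_ℂ - ⟪a', H (flip j x) b'⟫_ℂ =
          ⟪a - a', H x b⟫_ℂ + (⟪a', H x b⟫_ℂ - ⟪a', H (flip j x) b⟫_ℂ) +
            ⟪a', H (flip j x) (b - b')⟫_ℂ := by
        rw [map_sub]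
        simp only [inner_sub_left, inner_sub_right]
        ring
      have hn : ‖A.P j a'‖ = ‖A.P j a‖ := A.norm_flip j x u
      have f1 : ‖⟪a - a', H x b⟫_ℂ‖ ≤ ‖A.P j a'‖ ^ 2 + ‖A.P j (H x b)‖ ^ 2 := by
        rw [e1, inner_smul_left, ← A.Pidem j a, A.Psymm, norm_mul]
        have : ‖⟪A.P j a, A.P j (H x b)⟫_ℂ‖ ≤ ‖A.P j a‖ * ‖A.P j (H x b)‖ :=
          norm_inner_le_norm _ _
        rw [hn]
        have h2 : ‖(starRingEnd ℂ) 2‖ = 2 := by simp
        rw [h2]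
        nlinarith [sq_nonneg (‖A.P j a‖ - ‖A.P j (H x b)‖)]
      have f3 : ‖⟪a', H (flip j x) (b - b')⟫_ℂ‖ ≤
          ‖A.P j (H (flip j x) a')‖ ^ 2 + ‖A.P j b‖ ^ 2 := by
        have e6 : ⟪H (flip j x) a', A.P j b⟫_ℂ = ⟪A.P j (H (flip j x) a'), A.P j b⟫_ℂ := by
          rw [A.Psymm, A.Pidem]
        rw [e2, map_smul, inner_smul_right, ← hH.symm, e6, norm_mul]
        have : ‖⟪A.P j (H (flip j x) a'), A.P j b⟫_ℂ‖ ≤
          ‖A.P j (H (flip j x) a')‖ * ‖A.P j b‖ := norm_inner_le_norm _ _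
        have h2 : ‖(2 : ℂ)‖ = 2 := by simp
        rw [h2]
        nlinarith [sq_nonneg (‖A.P j (H (flip j x) a')‖ - ‖A.P j b‖)]
      have f2 := hq3 j x a' b
      rw [e3, e4, e5]
      calc _ ≤ ‖⟪a - a', H x b⟫_ℂ‖ + ‖⟪a', H x b⟫_ℂ - ⟪a', H (flip j x) b⟫_ℂ‖ +
            ‖⟪a', H (flip j x) (b - b')⟫_ℂ‖ := norm_add₃_le
        _ ≤ _ := by linarith

/-- the total change on a finite-dimensional subspace -/
lemma Smooth.trace {L : ℝ} {H : (Fin N → Bool) → (E →L[ℂ] E)} (hL : 0 ≤ L) (hH : Smooth L H)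
    (R : Submodule ℂ E) [FiniteDimensional ℂ R] (d : ℕ) (hd : Module.finrank ℂ R ≤ d) :
    ∃ t : Fin N → (Fin N → Bool) → ℝ, (∀ j x, 0 ≤ t j x) ∧ (∀ x, ∑ j, t j x ≤ L * d) ∧
      ∀ j x, ∀ u ∈ R, ∀ w ∈ R, ‖⟪u, H x w⟫_ℂ - ⟪u, H (flip j x) w⟫_ℂ‖ ≤
        ‖u‖ * ‖w‖ * (t j x + t j (flip j x)) := by
  obtain ⟨q, hq1, hq2, hq3⟩ := hH.ex
  set b := stdOrthonormalBasis ℂ R with hb
  set t : Fin N → (Fin N → Bool) → ℝ := fun j x => ∑ a, q j x (b a : E) with ht
  have ht0 : ∀ j x, 0 ≤ t j x := fun j x => Finset.sum_nonneg fun a _ => (hq1 j x).nonneg _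
  have hqt : ∀ j x, ∀ w ∈ R, q j x w ≤ ‖w‖ ^ 2 * t j x := by
    intro j x w hw
    have h1 : w = ∑ a, ⟪(b a : E), w⟫_ℂ • (b a : E) := by
      have := b.sum_repr' (⟨w, hw⟩ : R)
      have h2 := congrArg (Subtype.val) this
      rw [AddSubmonoidClass.coe_finsetSum] at h2
      simpa using h2.symm
    have h2 : ∑ a, ‖⟪(b a : E), w⟫_ℂ‖ ^ 2 = ‖w‖ ^ 2 := by
      have := b.sum_sq_norm_inner_right (⟨w, hw⟩ : R)
      simpa using this
    have h3 := (hq1 j x).comb _ (fun a => ⟪(b a : E), w⟫_ℂ) (fun a => (b a : E))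
    rw [← h1, h2] at h3
    exact h3
  refine ⟨t, ht0, ?_, ?_⟩
  · intro x
    simp only [ht]
    rw [Finset.sum_comm]
    calc ∑ a, ∑ j, q j x (b a : E) ≤ ∑ a : Fin (Module.finrank ℂ R), L * ‖(b a : E)‖ ^ 2 :=
          Finset.sum_le_sum fun a _ => hq2 x _
      _ = ∑ a : Fin (Module.finrank ℂ R), L := by
          apply Finset.sum_congr rfl
          intro a _
          have : ‖(b a : E)‖ = 1 := b.orthonormal.1 a
          rw [this]; ring
      _ = (Module.finrank ℂ R : ℝ) * L := by simp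
      _ ≤ L * d := by
          rw [mul_comm]
          exact mul_le_mul_of_nonneg_left (by exact_mod_cast hd) hL
  · intro j x u hu w hw
    have hpos : ∀ u ∈ R, ∀ w ∈ R, ‖u‖ = 1 → ‖w‖ = 1 →
        ‖⟪u, H x w⟫_ℂ - ⟪u, H (flip j x) w⟫_ℂ‖ ≤ t j x + t j (flip j x) := by
      intro u hu w hw hu1 hw1
      have h1 := hqt j (flip j x) u hu
      have h2 := hqt j x w hw
      rw [hu1] at h1
      rw [hw1] at h2
      have h3 := hq3 j x u w
      linarith
    by_cases hu0 : u = 0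
    · subst hu0; simp
    by_cases hw0 : w = 0
    · subst hw0; simp
    have hun : ‖u‖ ≠ 0 := norm_ne_zero_iff.mpr hu0
    have hwn : ‖w‖ ≠ 0 := norm_ne_zero_iff.mpr hw0
    set u1 : E := ((‖u‖⁻¹ : ℝ) : ℂ) • u with hu1
    set w1 : E := ((‖w‖⁻¹ : ℝ) : ℂ) • w with hw1
    have nu1 : ‖u1‖ = 1 := by
      rw [hu1, norm_smul, Complex.norm_real, norm_inv, norm_norm, inv_mul_cancel₀ hun]
    have nw1 : ‖w1‖ = 1 := by
      rw [hw1, norm_smul, Complex.norm_real, norm_inv, norm_norm, inv_mul_cancel₀ hwn]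
    have h1 := hpos u1 (R.smul_mem _ hu) w1 (R.smul_mem _ hw) nu1 nw1
    have eu : u = ((‖u‖ : ℝ) : ℂ) • u1 := by
      rw [hu1, smul_smul, ← Complex.ofReal_mul, mul_inv_cancel₀ hun, Complex.ofReal_one, one_smul]
    have ew : w = ((‖w‖ : ℝ) : ℂ) • w1 := by
      rw [hw1, smul_smul, ← Complex.ofReal_mul, mul_inv_cancel₀ hwn, Complex.ofReal_one, one_smul]
    have h2 : ⟪u, H x w⟫_ℂ - ⟪u, H (flip j x) w⟫_ℂ =
        ((‖u‖ : ℝ) : ℂ) * ((‖w‖ : ℝ) : ℂ) * (⟪u1, H x w1⟫_ℂ - ⟪u1, H (flip j x) w1⟫_ℂ) := by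
      have h3 : ∀ y, ⟪u, H y w⟫_ℂ = ((‖u‖ : ℝ) : ℂ) * ((‖w‖ : ℝ) : ℂ) * ⟪u1, H y w1⟫_ℂ := by
        intro y
        calc ⟪u, H y w⟫_ℂ = ⟪((‖u‖ : ℝ) : ℂ) • u1, H y (((‖w‖ : ℝ) : ℂ) • w1)⟫_ℂ := by
              rw [← eu, ← ew]
          _ = _ := by
              rw [map_smul, inner_smul_left, inner_smul_right, Complex.conj_ofReal]
              ring
      rw [h3 x, h3 (flip j x)]
      ring
    rw [h2, norm_mul, norm_mul, Complex.norm_real, Complex.norm_real, norm_norm, norm_norm]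
    exact mul_le_mul_of_nonneg_left h1 (by positivity)

end

end Pool.Agent.H.MP_58d537_lc.Mem
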