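import Pool.Agent.H.MP_58d537_lc.Mem.Defs
import Pool.Agent.H.MP_58d537_lc.Mem.Smooth
import Pool.Agent.H.MP_58d537_lc.Mem.Degree

/-!
# From matrices to operators on the Euclidean space
-/

set_option autoImplicit false

open Finset
open scoped InnerProductSpace

namespace Pool.Agent.H.MP_58d537_lc.Mem

open Pool.Agent.H.MP_58d537_lc

noncomputable section

section General

variable {ι : Type*} [Fintype ι] [DecidableEq ι]

/-- a matrix as an operator -/
def mE (A : Matrix ι ι ℂ) : EuclideanSpace ℂ ι →L[ℂ] EuclideanSpace ℂ ι :=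
  Matrix.toEuclideanCLM (𝕜 := ℂ) A

lemma mE_toLp (A : Matrix ι ι ℂ) (v : ι → ℂ) :
    mE A (WithLp.toLp 2 v) = WithLp.toLp 2 (A.mulVec v) := Matrix.toEuclideanCLM_toLp A v

lemma mE_mul (A B : Matrix ι ι ℂ) : mE (A * B) = (mE A).comp (mE B) := by
  unfold mE
  rw [map_mul]
  rfl

lemma mE_one : mE (1 : Matrix ι ι ℂ) = ContinuousLinearMap.id ℂ _ := by
  unfold mE
  rw [map_one]
  rfl

lemma mE_adj (A : Matrix ι ι ℂ) : ContinuousLinearMap.adjoint (mE A) = mE A.conjTranspose := by
  unfold mE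
  rw [← Matrix.star_eq_conjTranspose, map_star, ContinuousLinearMap.star_eq_adjoint]

lemma mE_diag (c : ι → ℂ) (v : EuclideanSpace ℂ ι) (i : ι) :
    mE (Matrix.diagonal c) v i = c i * v i := by
  have : WithLp.ofLp (mE (Matrix.diagonal c) v) = (Matrix.diagonal c).mulVec (WithLp.ofLp v) :=
    Matrix.ofLp_toEuclideanCLM _ _
  calc mE (Matrix.diagonal c) v i = (Matrix.diagonal c).mulVec (WithLp.ofLp v) i := by rw [← this]
    _ = _ := by rw [Matrix.mulVec_diagonal]

lemma sum_norm_sq_mE {κ : Type*} [Fintype κ] (M : κ → Matrix ι ι ℂ)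
    (hM : ∑ k, (M k).conjTranspose * M k = 1) (v : EuclideanSpace ℂ ι) :
    ∑ k, ‖mE (M k) v‖ ^ 2 = ‖v‖ ^ 2 := by
  have h1 : ∀ k, ((‖mE (M k) v‖ ^ 2 : ℝ) : ℂ) = ⟪v, mE ((M k).conjTranspose * M k) v⟫_ℂ := by
    intro k
    rw [mE_mul, ← mE_adj, ContinuousLinearMap.comp_apply, ContinuousLinearMap.adjoint_inner_right]
    rw [inner_self_eq_norm_sq_to_K]
    push_cast
    rfl
  have h2 : ((∑ k, ‖mE (M k) v‖ ^ 2 : ℝ) : ℂ) = ((‖v‖ ^ 2 : ℝ) : ℂ) := by
    push_cast
    have h3 : ∀ k, ((‖mE (M k) v‖ : ℝ) : ℂ) ^ 2 = ⟪v, mE ((M k).conjTranspose * M k) v⟫_ℂ := by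
      intro k; rw [← h1 k]; push_cast; rfl
    simp only [h3]
    rw [← inner_sum]
    have h4 : ∑ k, mE ((M k).conjTranspose * M k) v = v := by
      have h5 : ∑ k, mE ((M k).conjTranspose * M k) = mE (1 : Matrix ι ι ℂ) := by
        unfold mE
        rw [← map_sum, hM]
      rw [← _root_.sum_apply, h5, mE_one]
      rfl
    rw [h4, inner_self_eq_norm_sq_to_K]
    rfl
  exact_mod_cast h2

lemma norm_mE_unitary (U : Matrix.unitaryGroup ι ℂ) (v : EuclideanSpace ℂ ι) :
    ‖mE U.1 v‖ = ‖v‖ := by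
  have h := Matrix.mem_unitaryGroup_iff'.mp U.2
  have h1 := sum_norm_sq_mE (fun _ : Unit => U.1) (by
    simpa [Matrix.star_eq_conjTranspose] using h) v
  simp only [Finset.univ_unique, Finset.sum_const, Finset.card_singleton, one_smul] at h1
  exact (sq_eq_sq₀ (norm_nonneg _) (norm_nonneg _)).mp h1

lemma finrank_range_mE (A : Matrix ι ι ℂ) :
    Module.finrank ℂ (LinearMap.range (mE A).toLinearMap) = A.rank := by
  have e := WithLp.linearEquiv 2 ℂ (ι → ℂ)
  unfold Matrix.rank
  have h1 : LinearMap.range A.mulVecLin =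
      (LinearMap.range (mE A).toLinearMap).map (WithLp.linearEquiv 2 ℂ (ι → ℂ)).toLinearMap := by
    ext w
    simp only [LinearMap.mem_range, Submodule.mem_map]
    constructor
    · rintro ⟨v, rfl⟩
      refine ⟨mE A (WithLp.toLp 2 v), ⟨WithLp.toLp 2 v, rfl⟩, ?_⟩
      rw [mE_toLp]
      rfl
    · rintro ⟨u, ⟨v, rfl⟩, rfl⟩
      exact ⟨WithLp.ofLp v, rfl⟩
  rw [h1]
  exact (LinearEquiv.finrank_map_eq (WithLp.linearEquiv 2 ℂ (ι → ℂ)) _).symm

end General

variable {N m D d : ℕ}

/-- whether `j` is the queried coordinate -/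
def par1 (j : Fin N) (q : Reg N m) : ℂ := if q.1 = some j then 1 else 0

/-- phase -/
def orc1 (x : Fin N → Bool) (q : Reg N m) : ℂ :=
  Option.elim q.1 (1 : ℂ) (fun i => if x i then -1 else 1)

lemma orc1_flip (j : Fin N) (x : Fin N → Bool) (q : Reg N m) :
    orc1 (flip j x) q = orc1 x q - 2 * (par1 j q * orc1 x q) := by
  unfold orc1 par1
  rcases q with ⟨_ | i, w⟩
  · simp
  · by_cases hij : i = j
    · subst hij
      simp only [Option.elim_some, flip, Function.update_self, if_true]
      cases x i <;> simp <;> norm_num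
    · simp [flip, hij]

lemma par1_orc1 (j : Fin N) (x : Fin N → Bool) (q : Reg N m) :
    par1 j q * orc1 x q = chi j x * par1 j q := by
  unfold orc1 par1 chi
  rcases q with ⟨_ | i, w⟩
  · simp
  · by_cases hij : i = j
    · subst hij
      simp
    · simp [hij]

/-- the query operators -/
def qo (N m : ℕ) : QO N (EuclideanSpace ℂ (Reg N m)) where
  O x := mE (oracle x)
  P j := mE (Matrix.diagonal (par1 j))
  Osymm x u w := by
    rw [PiLp.inner_apply, PiLp.inner_apply]
    apply Finset.sum_congr rfl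
    intro q _
    change ⟪mE (Matrix.diagonal (orc1 x)) u q, w q⟫_ℂ = ⟪u q, mE (Matrix.diagonal (orc1 x)) w q⟫_ℂ
    rw [mE_diag, mE_diag, RCLike.inner_apply, RCLike.inner_apply, map_mul]
    have : (starRingEnd ℂ) (orc1 x q) = orc1 x q := by
      unfold orc1
      rcases q with ⟨_ | i, w⟩
      · simp
      · simp only [Option.elim_some]
        cases x i <;> simp
    rw [this]
    ring
  Onorm x u := by
    have h1 : ‖mE (oracle x) u‖ ^ 2 = ‖u‖ ^ 2 := by
      rw [EuclideanSpace.norm_sq_eq, EuclideanSpace.norm_sq_eq]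
      apply Finset.sum_congr rfl
      intro q _
      change ‖mE (Matrix.diagonal (orc1 x)) u q‖ ^ 2 = _
      rw [mE_diag, norm_mul]
      have : ‖orc1 x q‖ = 1 := by
        unfold orc1
        rcases q with ⟨_ | i, w⟩
        · simp
        · simp only [Option.elim_some]
          cases x i <;> simp
      rw [this, one_mul]
    exact (sq_eq_sq₀ (norm_nonneg _) (norm_nonneg _)).mp h1
  Psymm j u w := by
    rw [PiLp.inner_apply, PiLp.inner_apply]
    apply Finset.sum_congr rfl
    intro q _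
    rw [mE_diag, mE_diag, RCLike.inner_apply, RCLike.inner_apply, map_mul]
    have : (starRingEnd ℂ) (par1 j q) = par1 j q := by
      unfold par1; split_ifs <;> simp
    rw [this]
    ring
  Pidem j u := by
    ext q
    rw [mE_diag, mE_diag]
    unfold par1; split_ifs <;> simp
  query j x u := by
    ext q
    change mE (Matrix.diagonal (orc1 (flip j x))) u q = mE (Matrix.diagonal (orc1 x)) u q -
      (2 : ℂ) * mE (Matrix.diagonal (par1 j)) (mE (Matrix.diagonal (orc1 x)) u) q
    rw [mE_diag, mE_diag, mE_diag, mE_diag, orc1_flip]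
    ring
  weight u := by
    have h1 : ∀ j, ‖mE (Matrix.diagonal (par1 j)) u‖ ^ 2 =
        ∑ q : Reg N m, ‖par1 j q‖ ^ 2 * ‖u q‖ ^ 2 := by
      intro j
      rw [EuclideanSpace.norm_sq_eq]
      apply Finset.sum_congr rfl
      intro q _
      rw [mE_diag, norm_mul, mul_pow]
    simp only [h1]
    rw [Finset.sum_comm, EuclideanSpace.norm_sq_eq]
    apply Finset.sum_le_sum
    intro q _
    rw [← Finset.sum_mul]
    have h2 : ∑ j : Fin N, ‖par1 j q‖ ^ 2 ≤ 1 := by
      rcases q with ⟨_ | i, w⟩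
      · simp [par1]
      · rw [Finset.sum_eq_single i]
        · simp [par1]
        · intro j _ hj
          have : ¬ (i = j) := fun h => hj h.symm
          simp [par1, this]
        · intro h; exact absurd (Finset.mem_univ i) h
    have h3 : 0 ≤ ‖u q‖ ^ 2 := by positivity
    nlinarith

lemma qo_PO (j : Fin N) (x : Fin N → Bool) (u : EuclideanSpace ℂ (Reg N m)) :
    (qo N m).P j ((qo N m).O x u) = chi j x • (qo N m).P j u := by
  ext q
  change mE (Matrix.diagonal (par1 j)) (mE (Matrix.diagonal (orc1 x)) u) q =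
    chi j x * mE (Matrix.diagonal (par1 j)) u q
  rw [mE_diag, mE_diag, mE_diag, ← mul_assoc, par1_orc1]
  ring

/-! ### a query raises the degree by one -/

section Query

variable {E : Type*} [NormedAddCommGroup E] [InnerProductSpace ℂ E]

lemma pd_query (A : QO N E) (hPO : ∀ j z u, A.P j (A.O z u) = chi j z • A.P j u)
    (K : Finset (Fin N)) (a : Fin N → Bool) (φ : (Fin N → Bool) → E) (j : Fin N) :
    pd j (fun x => A.O (ovw K a x) (φ x)) =
      fun x => A.O (ovw K a x) (pd j φ x) + (if j ∈ K then 0 else A.P j (φ (flip j x))) := by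
  funext x
  by_cases hj : j ∈ K
  · simp only [hj, if_true, add_zero]
    unfold pd
    beta_reduce
    rw [ovw_flip_mem hj, ← map_sub, ← map_smul]
  · simp only [hj, if_false]
    unfold pd
    beta_reduce
    rw [ovw_flip hj, A.query, hPO, map_smul, map_sub]
    have h1 : chi j (ovw K a x) = chi j x := by
      unfold chi ovw; simp [hj]
    rw [h1]
    have h2 : A.O (ovw K a x) (φ x) - (A.O (ovw K a x) (φ (flip j x)) -
        (2 : ℂ) • chi j x • A.P j (φ (flip j x))) =
        (A.O (ovw K a x) (φ x) - A.O (ovw K a x) (φ (flip j x))) +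
          (2 * chi j x) • A.P j (φ (flip j x)) := by
      rw [smul_smul]; abel
    rw [h2, smul_add, smul_smul]
    have h3 : chi j x / 2 * (2 * chi j x) = 1 := by
      have := chi_mul_self j x
      linear_combination this
    rw [h3, one_smul]

lemma Deg.query (A : QO N E) (hPO : ∀ j z u, A.P j (A.O z u) = chi j z • A.P j u)
    (K : Finset (Fin N)) (a : Fin N → Bool) (n : ℕ) : ∀ φ : (Fin N → Bool) → E, Deg n φ →
    Deg (n + 1) (fun x => A.O (ovw K a x) (φ x)) := by
  induction n with
  | zero =>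
    intro φ hφ j
    rw [pd_query A hPO, pd_of_inv (hφ j)]
    by_cases hj : j ∈ K
    · simp only [hj, if_true, add_zero, map_zero]
      exact Deg.zero_fun 0
    · simp only [hj, if_false, map_zero, zero_add]
      exact (Deg.comp_flip hφ j).lin (A.P j)
  | succ n ih =>
    intro φ hφ j
    rw [pd_query A hPO]
    by_cases hj : j ∈ K
    · simp only [hj, if_true, add_zero]
      exact ih _ (hφ j)
    · simp only [hj, if_false]
      exact (ih _ (hφ j)).add ((Deg.comp_flip hφ j).lin (A.P j))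

/-- coherent evolution -/
def cK (A : QO N E) (W : ℕ → (E →L[ℂ] E)) (x : Fin N → Bool) : ℕ → (E →L[ℂ] E)
  | 0 => W 0
  | l + 1 => (W (l + 1)).comp ((A.O x).comp (cK A W x l))

lemma norm_cK (A : QO N E) (W : ℕ → (E →L[ℂ] E)) (hW : ∀ t u, ‖W t u‖ = ‖u‖)
    (x : Fin N → Bool) (l : ℕ) (u : E) : ‖cK A W x l u‖ = ‖u‖ := by
  induction l with
  | zero => exact hW 0 u
  | succ l ih =>
    change ‖W (l + 1) (A.O x (cK A W x l u))‖ = _
    rw [hW, A.Onorm, ih]

lemma deg_cK (A : QO N E) (hPO : ∀ j z u, A.P j (A.O z u) = chi j z • A.P j u)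
    (W : ℕ → (E →L[ℂ] E)) (K : Finset (Fin N)) (a : Fin N → Bool) (w : E) (l : ℕ) :
    Deg l (fun x => cK A W (ovw K a x) l w) := by
  induction l with
  | zero => exact (Deg.const 0 (W 0 w) : Deg 0 (fun _ : Fin N → Bool => W 0 w))
  | succ l ih =>
    exact (Deg.query A hPO K a l _ ih).lin (W (l + 1))

variable [CompleteSpace E]

lemma Smooth.conj {L : ℝ} (hL : 0 ≤ L) {H : (Fin N → Bool) → (E →L[ℂ] E)} (hH : Smooth L H)
    (M : E →L[ℂ] E) (hM : ∀ w, ‖M w‖ ≤ ‖w‖) :
    Smooth L (fun x => (ContinuousLinearMap.adjoint M).comp ((H x).comp M)) := by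
  have := Smooth.meas (E := E) (F := E) (ι := Unit) (fun _ => M) (fun w => by
    simp only [Finset.univ_unique, Finset.sum_const, Finset.card_singleton, one_smul]
    exact pow_le_pow_left₀ (norm_nonneg _) (hM w) 2) (H := fun _ => H) hL (fun _ => hH)
  simpa using this

lemma smooth_cK (A : QO N E) (W : ℕ → (E →L[ℂ] E)) (hW : ∀ t u, ‖W t u‖ = ‖u‖) (l : ℕ) :
    ∀ (L : ℝ), 0 ≤ L → ∀ H : (Fin N → Bool) → (E →L[ℂ] E), Smooth L H →
    Smooth (L + 2 * l) (fun x => (ContinuousLinearMap.adjoint (cK A W x l)).comp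
      ((H x).comp (cK A W x l))) := by
  induction l with
  | zero =>
    intro L hL H hH
    have := Smooth.conj hL hH (W 0) (fun w => (hW 0 w).le)
    simpa [cK] using this
  | succ l ih =>
    intro L hL H hH
    have h1 := Smooth.conj hL hH (W (l + 1)) (fun w => (hW (l + 1) w).le)
    have h2 := Smooth.query A h1
    have h3 := ih (L + 2) (by linarith) _ h2
    have e1 : L + 2 + 2 * (l : ℝ) = L + 2 * ((l + 1 : ℕ) : ℝ) := by push_cast; ring
    rw [e1] at h3
    have hO : ∀ x, ContinuousLinearMap.adjoint (A.O x) = A.O x := by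
      intro x
      symm
      rw [ContinuousLinearMap.eq_adjoint_iff]
      intro u w
      exact A.Osymm x u w
    have e2 : (fun x => (ContinuousLinearMap.adjoint (cK A W x (l + 1))).comp
        ((H x).comp (cK A W x (l + 1)))) = fun x =>
        (ContinuousLinearMap.adjoint (cK A W x l)).comp
          (((A.O x).comp (((ContinuousLinearMap.adjoint (W (l + 1))).comp
            ((H x).comp (W (l + 1)))).comp (A.O x))).comp (cK A W x l)) := by
      funext x
      simp only [cK, ContinuousLinearMap.adjoint_comp, hO, ContinuousLinearMap.comp_assoc]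
    rw [e2]
    exact h3

end Query

end

end Pool.Agent.H.MP_58d537_lc.Mem
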