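import Pool.Agent.H.MP_58d537_lc.Mem.Path
import Pool.Agent.H.MP_58d537_lc.Mem.Degree

/-!
# Decoupling

`E_x <v(x), G(x) v(x)>` is compared with `E_{x,y} <v(y), G(x) v(y)>`.
-/

set_option autoImplicit false

open Finset
open scoped InnerProductSpace

namespace Pool.Agent.H.MP_58d537_lc.Mem

open Pool.Agent.H.MP_58d537_lc

noncomputable section

variable {N : ℕ}

/-- double average -/
def avg2 (Ψ : (Fin N → Bool) → (Fin N → Bool) → ℝ) : ℝ := avg (fun x => avg (fun y => Ψ x y))

/-- `x` where `s` is true, `y` elsewhere -/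
def mix (s x y : Fin N → Bool) : Fin N → Bool := fun i => if s i then x i else y i

lemma avg2_mono {Ψ Φ : (Fin N → Bool) → (Fin N → Bool) → ℝ} (h : ∀ x y, Ψ x y ≤ Φ x y) :
    avg2 Ψ ≤ avg2 Φ := avg_mono fun x => avg_mono fun y => h x y

lemma avg2_add (Ψ Φ : (Fin N → Bool) → (Fin N → Bool) → ℝ) :
    avg2 (fun x y => Ψ x y + Φ x y) = avg2 Ψ + avg2 Φ := by
  unfold avg2
  simp only [avg_add]

lemma avg2_sub (Ψ Φ : (Fin N → Bool) → (Fin N → Bool) → ℝ) :
    avg2 (fun x y => Ψ x y - Φ x y) = avg2 Ψ - avg2 Φ := by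
  unfold avg2
  simp only [avg_sub]

lemma avg2_const_mul (c : ℝ) (Ψ : (Fin N → Bool) → (Fin N → Bool) → ℝ) :
    avg2 (fun x y => c * Ψ x y) = c * avg2 Ψ := by
  unfold avg2
  simp only [avg_const_mul]

lemma avg2_sum {ι : Type*} (s : Finset ι) (Ψ : ι → (Fin N → Bool) → (Fin N → Bool) → ℝ) :
    avg2 (fun x y => ∑ i ∈ s, Ψ i x y) = ∑ i ∈ s, avg2 (Ψ i) := by
  unfold avg2
  simp only [avg_sum]

lemma avg2_flipx (j : Fin N) (Ψ : (Fin N → Bool) → (Fin N → Bool) → ℝ) :
    avg2 (fun x y => Ψ (flip j x) y) = avg2 Ψ :=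
  avg_flip j (fun x => avg (fun y => Ψ x y))

lemma avg2_flipy (j : Fin N) (Ψ : (Fin N → Bool) → (Fin N → Bool) → ℝ) :
    avg2 (fun x y => Ψ x (flip j y)) = avg2 Ψ := by
  unfold avg2
  congr 1
  funext x
  exact avg_flip j (fun y => Ψ x y)

lemma avg2_abs_le (Ψ : (Fin N → Bool) → (Fin N → Bool) → ℝ) :
    |avg2 Ψ| ≤ avg2 (fun x y => |Ψ x y|) := by
  rw [abs_le]
  constructor
  · rw [neg_le_iff_add_nonneg, ← avg2_add]
    apply avg_nonneg
    intro x
    apply avg_nonneg
    intro y
    have := neg_abs_le (Ψ x y)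
    linarith
  · exact avg2_mono fun x y => le_abs_self _

lemma avg2_four (j : Fin N) (Ψ : (Fin N → Bool) → (Fin N → Bool) → ℝ) :
    avg2 Ψ = avg2 (fun x y => 1 / 4 *
      ((Ψ x y + Ψ (flip j x) y) + (Ψ x (flip j y) + Ψ (flip j x) (flip j y)))) := by
  rw [avg2_const_mul, avg2_add, avg2_add, avg2_add, avg2_flipx, avg2_flipy]
  have : avg2 (fun x y => Ψ (flip j x) (flip j y)) = avg2 Ψ := by
    rw [avg2_flipx j (fun x y => Ψ x (flip j y)), avg2_flipy]
  rw [this]
  ring

/-! ### mixing -/

lemma mix_flip_s (j : Fin N) (s x y : Fin N → Bool) :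
    mix (flip j s) x y = mix s x y ∨ mix (flip j s) x y = flip j (mix s x y) := by
  by_cases h : x j = y j
  · left
    funext i
    by_cases hi : i = j
    · subst hi
      unfold mix flip
      simp only [Function.update_self]
      cases s i <;> simp [h]
    · unfold mix flip
      simp [hi]
  · right
    funext i
    by_cases hi : i = j
    · subst hi
      unfold mix flip
      simp only [Function.update_self]
      cases hs : s i <;> cases hx : x i <;> cases hy : y i <;> simp_all
    · unfold mix flip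
      simp [hi]

lemma mix_flip_x (j : Fin N) (s x y : Fin N → Bool) :
    mix s (flip j x) y = if s j then flip j (mix s x y) else mix s x y := by
  funext i
  by_cases hi : i = j
  · subst hi
    unfold mix flip
    cases hs : s i <;> simp [hs]
  · unfold mix flip
    cases s j <;> simp [hi]

lemma mix_flip_y (j : Fin N) (s x y : Fin N → Bool) :
    mix s x (flip j y) = if s j then mix s x y else flip j (mix s x y) := by
  funext i
  by_cases hi : i = j
  · subst hi
    unfold mix flip
    cases hs : s i <;> simp [hs]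
  · unfold mix flip
    cases s j <;> simp [hi]

/-- a function invariant under the `j`-th flip does not see the `j`-th bit of the mask -/
lemma mix_inv {j : Fin N} {Q : (Fin N → Bool) → ℝ} (hQ : ∀ z, Q (flip j z) = Q z)
    (s x y : Fin N → Bool) : Q (mix (flip j s) x y) = Q (mix s x y) := by
  rcases mix_flip_s j s x y with h | h <;> rw [h]
  exact hQ _

lemma mix_inv_x {j : Fin N} {Q : (Fin N → Bool) → ℝ} (hQ : ∀ z, Q (flip j z) = Q z)
    (s x y : Fin N → Bool) : Q (mix s (flip j x) y) = Q (mix s x y) := by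
  rw [mix_flip_x]
  split_ifs
  · exact hQ _
  · rfl

lemma avg2_mix (s : Fin N → Bool) (Q : (Fin N → Bool) → ℝ) :
    avg2 (fun x y => Q (mix s x y)) = avg Q := by
  have hinv : ∀ (j : Fin N) (s : Fin N → Bool),
      avg2 (fun x y => Q (mix (flip j s) x y)) = avg2 (fun x y => Q (mix s x y)) := by
    intro j s
    rw [avg2_four j (fun x y => Q (mix (flip j s) x y)), avg2_four j (fun x y => Q (mix s x y))]
    congr 1
    funext x y
    have hsj : flip j s j = !s j := by simp [flip]
    simp only [mix_flip_x, mix_flip_y, hsj]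
    have h2 : ∀ z : Fin N → Bool, z = mix s x y ∨ z = flip j (mix s x y) →
        Q z + Q (flip j z) = Q (mix s x y) + Q (flip j (mix s x y)) := by
      rintro z (rfl | rfl)
      · rfl
      · rw [flip_flip]; ring
    have h3 := h2 _ (mix_flip_s j s x y)
    cases hs : s j
    · simp only [Bool.not_false, if_true, Bool.false_eq_true, if_false, flip_flip]
      linarith
    · simp only [Bool.not_true, if_true, Bool.false_eq_true, if_false, flip_flip]
      linarith
  have h1 : avg2 (fun x y => Q (mix s x y)) = avg2 (fun x y => Q (mix (fun _ => true) x y)) :=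
    const_of_flip (f := fun s => avg2 (fun x y => Q (mix s x y))) hinv s (fun _ => true)
  rw [h1]
  unfold avg2 mix
  simp [avg_const]

/-- the difference of the mixed averages at the two ends of an edge of the cube of masks -/
lemma mix_edge (Ψ : (Fin N → Bool) → (Fin N → Bool) → ℝ) (j : Fin N) (s : Fin N → Bool)
    (hs : s j = true) :
    avg2 (fun x y => Ψ (mix s x y) x) - avg2 (fun x y => Ψ (mix (flip j s) x y) x) =
      1 / 4 * avg2 (fun x y => Ψ (mix s x y) x - Ψ (flip j (mix s x y)) x -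
        Ψ (mix s x y) (flip j x) + Ψ (flip j (mix s x y)) (flip j x)) := by
  rw [avg2_four j (fun x y => Ψ (mix s x y) x),
    avg2_four j (fun x y => Ψ (mix (flip j s) x y) x), ← avg2_sub, ← avg2_const_mul]
  congr 1
  funext x y
  have hsj : flip j s j = false := by simp [flip, hs]
  simp only [mix_flip_x, mix_flip_y, hsj, hs, if_true, Bool.false_eq_true, if_false]
  have h2 : ∀ z : Fin N → Bool, z = mix s x y ∨ z = flip j (mix s x y) →
      (Ψ z x + Ψ z (flip j x)) + (Ψ (flip j z) x + Ψ (flip j z) (flip j x)) =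
      (Ψ (mix s x y) x + Ψ (mix s x y) (flip j x)) + (Ψ (flip j (mix s x y)) x +
        Ψ (flip j (mix s x y)) (flip j x)) := by
    rintro z (rfl | rfl)
    · rfl
    · rw [flip_flip]; ring
  have h3 := h2 _ (mix_flip_s j s x y)
  linarith

/-- **General decoupling inequality.** -/
theorem decouple_gen (Ψ : (Fin N → Bool) → (Fin N → Bool) → ℝ)
    (b : Fin N → (Fin N → Bool) → (Fin N → Bool) → ℝ) (B : ℝ)
    (hb : ∀ j z x, b j (flip j z) x = b j z x)
    (h2 : ∀ j z x, |Ψ z x - Ψ (flip j z) x - Ψ z (flip j x) + Ψ (flip j z) (flip j x)| ≤ b j z x)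
    (hB : ∀ s, ∑ j, avg2 (fun x y => b j (mix s x y) x) ≤ B) :
    |avg (fun x => Ψ x x) - avg2 (fun x y => Ψ y x)| ≤ B / 4 := by
  have key := path_le (fun s => avg2 (fun x y => Ψ (mix s x y) x))
    (fun j s => 1 / 4 * avg2 (fun x y => b j (mix s x y) x)) (B / 4) ?_ ?_ ?_
  · have e1 : avg2 (fun x y => Ψ (mix (fun _ => true) x y) x) = avg (fun x => Ψ x x) := by
      unfold avg2 mix
      simp [avg_const]
    have e2 : avg2 (fun x y => Ψ (mix (fun _ => false) x y) x) = avg2 (fun x y => Ψ y x) := by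
      unfold avg2 mix
      simp
    simp only [e1, e2] at key
    exact key
  · intro j s
    congr 2
    funext x y
    exact mix_inv (Q := fun z => b j z x) (fun z => hb j z x) s x y
  · have hedge : ∀ j s, s j = true →
        |avg2 (fun x y => Ψ (mix s x y) x) - avg2 (fun x y => Ψ (mix (flip j s) x y) x)| ≤
          1 / 4 * avg2 (fun x y => b j (mix s x y) x) := by
      intro j s hs
      rw [mix_edge Ψ j s hs, abs_mul, abs_of_pos (by norm_num : (0 : ℝ) < 1 / 4)]
      apply mul_le_mul_of_nonneg_left _ (by norm_num)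
      exact (avg2_abs_le _).trans (avg2_mono fun x y => h2 j _ _)
    intro j s
    cases hs : s j
    · have h3 := hedge j (flip j s) (by simp [flip, hs])
      rw [flip_flip, abs_sub_comm] at h3
      refine h3.trans (le_of_eq ?_)
      congr 2
      funext x y
      exact mix_inv (Q := fun z => b j z x) (fun z => hb j z x) s x y
    · exact hedge j s hs
  · intro s
    rw [← Finset.mul_sum]
    have := hB s
    linarith

variable {E : Type*} [NormedAddCommGroup E] [InnerProductSpace ℂ E]

/-- **Decoupling of a vector-valued function against a smooth operator-valued function.** -/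
theorem decouple (R : Submodule ℂ E) (v : (Fin N → Bool) → E) (hv : ∀ x, v x ∈ R)
    (G : (Fin N → Bool) → (E →L[ℂ] E)) (t : Fin N → (Fin N → Bool) → ℝ) (L : ℝ)
    (M : (Fin N → Bool) → ℝ)
    (hG : ∀ j x, ∀ u ∈ R, ∀ w ∈ R,
      ‖⟪u, G x w⟫_ℂ - ⟪u, G (flip j x) w⟫_ℂ‖ ≤ ‖u‖ * ‖w‖ * (t j x + t j (flip j x)))
    (ht : ∀ j x, 0 ≤ t j x) (hL : ∀ x, ∑ j, t j x ≤ L)
    (hM : ∀ j x, ‖v x - v (flip j x)‖ ≤ M x) (hM0 : ∀ x, 0 ≤ M x) :
    |avg (fun x => RCLike.re ⟪v x, G x (v x)⟫_ℂ) -
      avg2 (fun x y => RCLike.re ⟪v y, G x (v y)⟫_ℂ)| ≤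
      L / 2 * avg (fun x => M x * (2 * ‖v x‖ + M x)) := by
  set F : Fin N → (Fin N → Bool) → ℝ := fun j z =>
    ‖v z - v (flip j z)‖ * (‖v z‖ + ‖v (flip j z)‖) with hF
  have hF0 : ∀ j z, 0 ≤ F j z := fun j z => by positivity
  have hFflip : ∀ j z, F j (flip j z) = F j z := by
    intro j z
    simp only [hF, flip_flip]
    rw [norm_sub_rev, add_comm]
  have hFle : ∀ j z, F j z ≤ M z * (2 * ‖v z‖ + M z) := by
    intro j z
    have h1 : ‖v (flip j z)‖ ≤ ‖v z‖ + M z := by
      calc ‖v (flip j z)‖ = ‖v z - (v z - v (flip j z))‖ := by congr 1; abel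
        _ ≤ ‖v z‖ + ‖v z - v (flip j z)‖ := norm_sub_le _ _
        _ ≤ ‖v z‖ + M z := by gcongr; exact hM j z
    simp only [hF]
    apply mul_le_mul (hM j z) _ (by positivity) (hM0 z)
    linarith
  have key := decouple_gen (fun z x => RCLike.re ⟪v z, G x (v z)⟫_ℂ)
    (fun j z x => F j z * (t j x + t j (flip j x)))
    (2 * L * avg (fun x => M x * (2 * ‖v x‖ + M x))) ?_ ?_ ?_
  · refine key.trans (le_of_eq ?_)
    ring
  · intro j z x
    rw [hFflip]
  · intro j z x
    have e1 : RCLike.re ⟪v z, G x (v z)⟫_ℂ - RCLike.re ⟪v (flip j z), G x (v (flip j z))⟫_ℂ -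
        RCLike.re ⟪v z, G (flip j x) (v z)⟫_ℂ +
        RCLike.re ⟪v (flip j z), G (flip j x) (v (flip j z))⟫_ℂ =
        RCLike.re (⟪v z - v (flip j z), G x (v z)⟫_ℂ -
          ⟪v z - v (flip j z), G (flip j x) (v z)⟫_ℂ) +
        RCLike.re (⟪v (flip j z), G x (v z - v (flip j z))⟫_ℂ -
          ⟪v (flip j z), G (flip j x) (v z - v (flip j z))⟫_ℂ) := by
      rw [map_sub (G x), map_sub (G (flip j x))]
      simp only [inner_sub_left, inner_sub_right, map_sub]
      ring
    rw [e1]
    have hz := hv z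
    have hz' := hv (flip j z)
    have hd : v z - v (flip j z) ∈ R := R.sub_mem hz hz'
    have b1 := hG j x _ hd _ hz
    have b2 := hG j x _ hz' _ hd
    calc _ ≤ ‖⟪v z - v (flip j z), G x (v z)⟫_ℂ -
          ⟪v z - v (flip j z), G (flip j x) (v z)⟫_ℂ‖ +
        ‖⟪v (flip j z), G x (v z - v (flip j z))⟫_ℂ -
          ⟪v (flip j z), G (flip j x) (v z - v (flip j z))⟫_ℂ‖ :=
          (abs_add_le _ _).trans (add_le_add (RCLike.abs_re_le_norm _) (RCLike.abs_re_le_norm _))
      _ ≤ _ := by
          simp only [hF]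
          nlinarith [b1, b2]
  · intro s
    have e1 : ∀ j, avg2 (fun x y => F j (mix s x y) * (t j x + t j (flip j x))) =
        2 * avg2 (fun x y => F j (mix s x y) * t j x) := by
      intro j
      have e2 : (fun x y => F j (mix s x y) * (t j x + t j (flip j x))) =
          fun x y => F j (mix s x y) * t j x + F j (mix s x y) * t j (flip j x) := by
        funext x y; ring
      rw [e2, avg2_add]
      have e3 := avg2_flipx j (fun x y => F j (mix s x y) * t j x)
      have e4 : (fun x y => F j (mix s (flip j x) y) * t j (flip j x)) =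
          fun x y => F j (mix s x y) * t j (flip j x) := by
        funext x y
        rw [mix_inv_x (hFflip j)]
      rw [e4] at e3
      rw [e3]
      ring
    simp only [e1]
    rw [← Finset.mul_sum, ← avg2_sum]
    have e5 : avg2 (fun x y => ∑ j, F j (mix s x y) * t j x) ≤
        avg2 (fun x y => L * (M (mix s x y) * (2 * ‖v (mix s x y)‖ + M (mix s x y)))) := by
      apply avg2_mono
      intro x y
      calc ∑ j, F j (mix s x y) * t j x ≤
          ∑ j, (M (mix s x y) * (2 * ‖v (mix s x y)‖ + M (mix s x y))) * t j x :=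
            Finset.sum_le_sum fun j _ => mul_le_mul_of_nonneg_right (hFle j _) (ht j x)
        _ = (M (mix s x y) * (2 * ‖v (mix s x y)‖ + M (mix s x y))) * ∑ j, t j x := by
            rw [Finset.mul_sum]
        _ ≤ (M (mix s x y) * (2 * ‖v (mix s x y)‖ + M (mix s x y))) * L := by
            apply mul_le_mul_of_nonneg_left (hL x)
            have := hM0 (mix s x y)
            positivity
        _ = _ := by ring
    have e6 := avg2_mix s (fun z => L * (M z * (2 * ‖v z‖ + M z)))
    rw [e6, avg_const_mul] at e5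
    linarith

end

end Pool.Agent.H.MP_58d537_lc.Mem
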