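import Mathlib

/-!
# Quantum query algorithms with bounded coherence and bounded quantum memory: definitions
-/

set_option autoImplicit false

namespace Pool.Agent.H.MP_58d537_lc.Mem

/-- The computational basis: the query register (`none` = no query) and the workspace. -/
abbrev Reg (N m : ℕ) : Type := Option (Fin N) × Fin m

/-- The phase oracle of `x`. -/
def oracle {N m : ℕ} (x : Fin N → Bool) : Matrix (Reg N m) (Reg N m) ℂ :=
  Matrix.diagonal (fun q : Reg N m => Option.elim q.1 (1 : ℂ) (fun i => if x i then -1 else 1))

/-- A coherent segment: `D` queries interleaved with the unitaries `U 0, ..., U D`. -/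
noncomputable def coherent {N m D : ℕ} (U : Fin (D + 1) → Matrix.unitaryGroup (Reg N m) ℂ)
    (x : Fin N → Bool) : Matrix (Reg N m) (Reg N m) ℂ :=
  (List.ofFn (fun k : Fin D => (U k.succ).1 * oracle x)).reverse.prod * (U 0).1

/-- An algorithm consisting of `T` coherent segments of `D` queries each. After each segment the
state is measured by a generalised measurement all of whose operators have rank at most `d`; the
rest of the algorithm may depend on the outcome (and so on all earlier outcomes). At the end it
outputs a bit. -/
inductive Alg (N m D d : ℕ) : ℕ → Type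
  | output (b : Bool) : Alg N m D d 0
  | segment {T : ℕ} (U : Fin (D + 1) → Matrix.unitaryGroup (Reg N m) ℂ) (Ω : ℕ)
      (M : Fin Ω → Matrix (Reg N m) (Reg N m) ℂ)
      (complete : ∑ ω, (M ω).conjTranspose * M ω = 1) (small : ∀ ω, (M ω).rank ≤ d)
      (next : Fin Ω → Alg N m D d T) : Alg N m D d (T + 1)

/-- The probability of output `1` on the oracle `x`, when started in the (not necessarily
normalised) state `ψ`. -/
noncomputable def Alg.accept {N m D d : ℕ} :
    {T : ℕ} → Alg N m D d T → (Fin N → Bool) → (Reg N m → ℂ) → ℝ
  | _, .output b, _, ψ => if b then ∑ q, ‖ψ q‖ ^ 2 else 0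
  | _, .segment U _ M _ _ next, x, ψ =>
      ∑ ω, (next ω).accept x ((M ω).mulVec ((coherent U x).mulVec ψ))

end Pool.Agent.H.MP_58d537_lc.Mem
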