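import Pool.Agent.H.MP_58d537_lc.Mem.Main

/-!
# Choice of the parameters
-/

set_option autoImplicit false

open Finset
open scoped InnerProductSpace

namespace Pool.Agent.H.MP_58d537_lc.Mem

open Pool.Agent.H.MP_58d537_lc

noncomputable section

variable {N m D d : ℕ}

/-- the number of fixed coordinates -/
def fixBound (D d T : ℕ) (V : ℝ) : ℝ :=
  if D = 1 then 576 * (T : ℝ) ^ 5 * (d : ℝ) ^ 2 / V ^ 2
  else 331776 * 9 ^ D * (D : ℝ) ^ 6 * (T : ℝ) ^ 9 * (d : ℝ) ^ 4 / V ^ 4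

lemma norm_single (s₀ : Reg N m) :
    ‖(WithLp.toLp 2 (Pi.single s₀ (1 : ℂ)) : HS N m)‖ = 1 := by
  have : (WithLp.toLp 2 (Pi.single s₀ (1 : ℂ)) : HS N m) = EuclideanSpace.single s₀ 1 := rfl
  rw [this]
  simp

lemma d_pos {T : ℕ} (A : Alg N m D d (T + 1)) (s₀ : Reg N m) : 1 ≤ d := by
  by_contra hd
  have hd0 : d = 0 := by omega
  cases A with
  | segment U Ω M complete small next =>
    have hM : ∀ ω, mE (M ω) = 0 := by
      intro ω
      have h1 : Module.finrank ℂ (LinearMap.range (mE (M ω)).toLinearMap) = 0 := by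
        rw [finrank_range_mE]
        have := small ω
        omega
      have h2 : LinearMap.range (mE (M ω)).toLinearMap = ⊥ := Submodule.finrank_eq_zero.mp h1
      have h3 : (mE (M ω)).toLinearMap = 0 := LinearMap.range_eq_bot.mp h2
      ext1 v
      exact LinearMap.congr_fun h3 v
    have h4 := sum_norm_sq_mE M complete (WithLp.toLp 2 (Pi.single s₀ (1 : ℂ)) : HS N m)
    rw [norm_single] at h4
    simp [hM] at h4

theorem bit_fixing {T : ℕ} (A : Alg N m D d T) (s₀ : Reg N m) {V : ℝ}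
    (hV : V = var (fun x => A.accept x (Pi.single s₀ 1))) (hpos : 0 < V) :
    ∃ (S : Finset (Fin N)) (a : Fin N → Bool), (S.card : ℝ) ≤ fixBound D d T V ∧
      V / 2 ≤ |avgR S a (fun x => A.accept x (Pi.single s₀ 1)) -
        avg (fun x => A.accept x (Pi.single s₀ 1))| := by
  classical
  set f : (Fin N → Bool) → ℝ := fun x => A.accept x (Pi.single s₀ 1) with hf
  have hψ := norm_single (N := N) (m := m) s₀
  -- degenerate cases
  have hdeg : ∀ (S : Finset (Fin N)) (a : Fin N → Bool), S.card ≤ 0 →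
      V ≤ |avgR S a f - avg f| → False := by
    intro S a hS h
    have : S = ∅ := Finset.card_eq_zero.mp (Nat.le_zero.mp hS)
    rw [this, avgR_empty, sub_self, abs_zero] at h
    linarith
  rcases Nat.eq_zero_or_pos D with hD0 | hD
  · exfalso
    subst hD0
    obtain ⟨S, a, h1, h2⟩ := main_bound A (Pi.single s₀ 1) hψ (θ := 1) (μ := 0)
      (fun v hv => lightBound_of_deg hv zero_le_one le_rfl (by simp)) 0
      (fun n hn => by
        have : (n : ℝ) ≤ 0 := by simpa using hn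
        exact_mod_cast this)
    refine hdeg S a (by simpa using h1) ?_
    rw [hV]
    refine le_trans (le_of_eq ?_) h2
    ring
  rcases Nat.eq_zero_or_pos T with hT0 | hT
  · exfalso
    subst hT0
    have hμ1 : (1 : ℝ) ≤ 4 * 9 ^ D * D + 1 := by
      have : (0 : ℝ) ≤ 4 * 9 ^ D * D := by positivity
      linarith
    obtain ⟨S, a, h1, h2⟩ := main_bound A (Pi.single s₀ 1) hψ (θ := 1)
      (μ := 4 * 9 ^ D * D + 1)
      (fun v hv => lightBound_of_deg hv zero_le_one (by linarith) (by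
        have h3 : (4 * 9 ^ D * D + 1 : ℝ) ≤ (4 * 9 ^ D * D + 1) ^ 4 :=
          le_self_pow₀ hμ1 (by norm_num)
        linarith)) (4 * D)
      (fun n hn => by
        have : (n : ℝ) ≤ ((4 * D : ℕ) : ℝ) := by push_cast; linarith
        exact_mod_cast this)
    refine hdeg S a (by simpa using h1) ?_
    rw [hV]
    refine le_trans (le_of_eq ?_) h2
    simp [hf]
  have hd : 1 ≤ d := by
    obtain ⟨T', rfl⟩ : ∃ T', T = T' + 1 := ⟨T - 1, by omega⟩
    exact d_pos A s₀
  have hDr : (1 : ℝ) ≤ D := by exact_mod_cast hD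
  have hTr : (1 : ℝ) ≤ T := by exact_mod_cast hT
  have hdr : (1 : ℝ) ≤ d := by exact_mod_cast hd
  -- the variance is at most one
  have hV1 : V ≤ 1 := by
    obtain ⟨h0, h1, -⟩ := accept_bounds A (Pi.single s₀ 1) hψ
    rw [hV]
    unfold var
    have h2 : avg (fun x => A.accept x (Pi.single s₀ 1) ^ 2) ≤ 1 := by
      have := avg_mono (f := fun x => A.accept x (Pi.single s₀ 1) ^ 2) (g := fun _ => 1)
        (fun x => pow_le_one₀ (h0 x) (h1 x))
      rwa [avg_const] at this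
    nlinarith [sq_nonneg (avg (fun x => A.accept x (Pi.single s₀ 1)))]
  set μ : ℝ := V / (12 * (T : ℝ) ^ 2 * D * d) with hμ
  have hden : (0 : ℝ) < 12 * (T : ℝ) ^ 2 * D * d := by positivity
  have hden1 : (1 : ℝ) ≤ 12 * (T : ℝ) ^ 2 * D * d := by
    have h1 : (1 : ℝ) ≤ (T : ℝ) ^ 2 := one_le_pow₀ hTr
    have h2 : (1 : ℝ) ≤ 12 * (T : ℝ) ^ 2 := by linarith
    have h3 : (1 : ℝ) ≤ 12 * (T : ℝ) ^ 2 * D := one_le_mul_of_one_le_of_one_le h2 hDr
    exact one_le_mul_of_one_le_of_one_le h3 hdr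
  have hμ0 : 0 < μ := div_pos hpos hden
  have hμ1 : μ ≤ 1 := by
    rw [hμ, div_le_one hden]
    linarith
  have hloss : (T : ℝ) * (D * T * (1 + d) * (2 * μ + μ ^ 2)) ≤ V / 2 := by
    have h1 : 2 * μ + μ ^ 2 ≤ 3 * μ := by nlinarith
    have h2 : (1 + d : ℝ) ≤ 2 * d := by linarith
    calc (T : ℝ) * (D * T * (1 + d) * (2 * μ + μ ^ 2))
        ≤ T * (D * T * (2 * d) * (3 * μ)) := by gcongr
      _ = (12 * (T : ℝ) ^ 2 * D * d) * μ / 2 := by ring
      _ = V / 2 := by rw [hμ, mul_div_cancel₀ _ hden.ne']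
  have hfloor : ∀ θ : ℝ, 0 < θ → ∀ n : ℕ, (n : ℝ) * θ ≤ 4 * D → n ≤ ⌊4 * D / θ⌋₊ := by
    intro θ hθ n hn
    apply Nat.le_floor
    rwa [le_div_iff₀ hθ]
  have hTP : ∀ θ : ℝ, 0 < θ → ∀ n : ℕ, n ≤ T * ⌊4 * D / θ⌋₊ → (n : ℝ) ≤ T * (4 * D / θ) := by
    intro θ hθ n hn
    have h1 : (n : ℝ) ≤ ((T * ⌊4 * D / θ⌋₊ : ℕ) : ℝ) := by exact_mod_cast hn
    push_cast at h1
    refine h1.trans (mul_le_mul_of_nonneg_left (Nat.floor_le (by positivity)) (by positivity))
  by_cases h1D : D = 1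
  · subst h1D
    have hθ : 0 < μ ^ 2 := by positivity
    obtain ⟨S, a, h1, h2⟩ := main_bound A (Pi.single s₀ 1) hψ (θ := μ ^ 2) (μ := μ)
      (fun v hv => lightBound_of_deg_one hv hθ.le hμ0.le le_rfl) _ (hfloor _ hθ)
    refine ⟨S, a, ?_, ?_⟩
    · refine (hTP _ hθ _ h1).trans (le_of_eq ?_)
      unfold fixBound
      rw [if_pos rfl, hμ]
      field_simp
      push_cast
      ring
    · rw [← hV] at h2
      exact le_trans (by linarith) h2
  · have hθ : 0 < μ ^ 4 / (4 * 9 ^ D * D) := by positivity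
    obtain ⟨S, a, h1, h2⟩ := main_bound A (Pi.single s₀ 1) hψ
      (θ := μ ^ 4 / (4 * 9 ^ D * D)) (μ := μ)
      (fun v hv => lightBound_of_deg hv hθ.le hμ0.le (le_of_eq (by field_simp))) _ (hfloor _ hθ)
    refine ⟨S, a, ?_, ?_⟩
    · refine (hTP _ hθ _ h1).trans (le_of_eq ?_)
      unfold fixBound
      rw [if_neg h1D, hμ]
      field_simp
      ring
    · rw [← hV] at h2
      exact le_trans (by linarith) h2

end

end Pool.Agent.H.MP_58d537_lc.Mem
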