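import Pool.Agent.H.MP_58d537_lc.Mem.Decouple
import Pool.Agent.H.MP_58d537_lc.Mem.Smooth
import Pool.Agent.H.MP_58d537_lc.Fixing

/-!
# One segment: reveal the influential coordinates, decouple the rest
-/

set_option autoImplicit false

open Finset
open scoped InnerProductSpace

namespace Pool.Agent.H.MP_58d537_lc.Mem

open Pool.Agent.H.MP_58d537_lc

noncomputable section

variable {N : ℕ}

lemma avg2_comm (Ψ : (Fin N → Bool) → (Fin N → Bool) → ℝ) :
    avg2 Ψ = avg2 (fun x y => Ψ y x) := by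
  unfold avg2 avg
  simp only [← Finset.sum_div]
  rw [Finset.sum_comm]

lemma avg_abs_le (f : (Fin N → Bool) → ℝ) : |avg f| ≤ avg (fun x => |f x|) := by
  rw [abs_le]
  constructor
  · rw [neg_le_iff_add_nonneg, ← avg_add]
    apply avg_nonneg
    intro x
    have := neg_abs_le (f x)
    linarith
  · exact avg_mono fun x => le_abs_self _

lemma ovw_ovw (S : Finset (Fin N)) (a x y : Fin N → Bool) (S' : Finset (Fin N)) (h : S ⊆ S') :
    ovw S' (ovw S a y) x = ovw S a (ovw S' y x) := by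
  funext i
  unfold ovw
  by_cases hi : i ∈ S
  · simp [hi, h hi]
  · simp [hi]

/-- averaging over the values of the revealed coordinates -/
lemma avg_avgR (S : Finset (Fin N)) (f : (Fin N → Bool) → ℝ) :
    avg (fun y => avgR S y f) = avg f := by
  have h1 := avg2_mix (fun i => decide (i ∈ S)) f
  have h2 : ∀ x y : Fin N → Bool, mix (fun i => decide (i ∈ S)) x y = ovw S x y := by
    intro x y
    funext i
    unfold mix ovw
    by_cases hi : i ∈ S <;> simp [hi]
  simp only [h2] at h1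
  exact h1

/-- tower property -/
lemma avgR_tower {S S' : Finset (Fin N)} (h : S ⊆ S') (a : Fin N → Bool)
    (f : (Fin N → Bool) → ℝ) :
    avg (fun y => avgR S' (ovw S a y) f) = avgR S a f := by
  have h1 := avg_avgR S' (fun x => f (ovw S a x))
  unfold avgR at h1 ⊢
  rw [← h1]
  congr 1
  funext y
  congr 1
  funext x
  rw [ovw_ovw S a x y S' h]

variable {E : Type*} [NormedAddCommGroup E] [InnerProductSpace ℂ E]

lemma Deg.pd_same {n : ℕ} {v : (Fin N → Bool) → E} (hv : Deg n v) (j : Fin N) :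
    Deg n (pd j v) := by
  cases n with
  | zero =>
    rw [pd_of_inv (hv j)]
    exact Deg.zero_fun 0
  | succ n => exact (hv j).mono_succ

/-- the restricted average of the square of a difference -/
def dif2 (K : Finset (Fin N)) (a : Fin N → Bool) (v : (Fin N → Bool) → E) (j : Fin N) : ℝ :=
  avgR K a (fun x => ‖v x - v (flip j x)‖ ^ 2)

lemma dif2_eq {K : Finset (Fin N)} {j : Fin N} (hj : j ∉ K) (a : Fin N → Bool)
    (v : (Fin N → Bool) → E) :
    dif2 K a v j = 4 * avg (fun x => ‖pd j (fun x => v (ovw K a x)) x‖ ^ 2) := by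
  unfold dif2 avgR
  rw [← avg_const_mul]
  congr 1
  funext x
  rw [norm_pd]
  beta_reduce
  rw [ovw_flip hj]
  ring

lemma dif4_le {K : Finset (Fin N)} {j : Fin N} (hj : j ∉ K) (a : Fin N → Bool)
    {v : (Fin N → Bool) → E} {D : ℕ} (hD : Deg D (fun x => v (ovw K a x))) :
    avgR K a (fun x => ‖v x - v (flip j x)‖ ^ 4) ≤ 9 ^ D * (dif2 K a v j) ^ 2 := by
  have h1 := avg_pow4_le (hD.pd_same j)
  rw [dif2_eq hj]
  unfold avgR
  have h2 : (fun x => ‖v (ovw K a x) - v (flip j (ovw K a x))‖ ^ 4) =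
      fun x => 16 * ‖pd j (fun x => v (ovw K a x)) x‖ ^ 4 := by
    funext x
    rw [norm_pd]
    beta_reduce
    rw [ovw_flip hj]
    ring
  rw [h2, avg_const_mul]
  nlinarith [h1]

lemma sum_dif2_le {K : Finset (Fin N)} (a : Fin N → Bool)
    {v : (Fin N → Bool) → E} {D : ℕ} (hD : Deg D (fun x => v (ovw K a x)))
    (J : Finset (Fin N)) (hJ : ∀ j ∈ J, j ∉ K) :
    ∑ j ∈ J, dif2 K a v j ≤ 4 * D * avgR K a (fun x => ‖v x‖ ^ 2) := by
  have h1 := sum_pd_le hD
  calc ∑ j ∈ J, dif2 K a v j =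
      ∑ j ∈ J, 4 * avg (fun x => ‖pd j (fun x => v (ovw K a x)) x‖ ^ 2) :=
        Finset.sum_congr rfl fun j hj => dif2_eq (hJ j hj) a v
    _ ≤ ∑ j, 4 * avg (fun x => ‖pd j (fun x => v (ovw K a x)) x‖ ^ 2) :=
        Finset.sum_le_sum_of_subset_of_nonneg (Finset.subset_univ J)
          (fun j _ _ => mul_nonneg (by norm_num) (avg_nonneg fun x => by positivity))
    _ = 4 * ∑ j, avg (fun x => ‖pd j (fun x => v (ovw K a x)) x‖ ^ 2) := by
        rw [Finset.mul_sum]
    _ ≤ 4 * (D * avg (fun x => ‖v (ovw K a x)‖ ^ 2)) := by linarith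
    _ = _ := by unfold avgR; ring

/-- bound for the largest difference over the coordinates outside `K'` -/
def mx (J : Finset (Fin N)) (v : (Fin N → Bool) → E) (x : Fin N → Bool) : ℝ :=
  Real.sqrt (Real.sqrt (∑ j ∈ J, ‖v x - v (flip j x)‖ ^ 4))

lemma mx_nonneg (J : Finset (Fin N)) (v : (Fin N → Bool) → E) (x : Fin N → Bool) :
    0 ≤ mx J v x := Real.sqrt_nonneg _

lemma le_mx {J : Finset (Fin N)} {j : Fin N} (hj : j ∈ J) (v : (Fin N → Bool) → E)
    (x : Fin N → Bool) : ‖v x - v (flip j x)‖ ≤ mx J v x := by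
  unfold mx
  apply Real.le_sqrt_of_sq_le
  apply Real.le_sqrt_of_sq_le
  have := Finset.single_le_sum (f := fun j => ‖v x - v (flip j x)‖ ^ 4)
    (fun i _ => by positivity) hj
  calc (‖v x - v (flip j x)‖ ^ 2) ^ 2 = ‖v x - v (flip j x)‖ ^ 4 := by ring
    _ ≤ _ := this

lemma mx_pow4 (J : Finset (Fin N)) (v : (Fin N → Bool) → E) (x : Fin N → Bool) :
    (mx J v x ^ 2) ^ 2 = ∑ j ∈ J, ‖v x - v (flip j x)‖ ^ 4 := by
  unfold mx
  rw [Real.sq_sqrt (Real.sqrt_nonneg _), Real.sq_sqrt (Finset.sum_nonneg fun i _ => by positivity)]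

/-- the light coordinates give a small error -/
lemma light_err {K : Finset (Fin N)} (a : Fin N → Bool)
    {v : (Fin N → Bool) → E} {D : ℕ} (hD : Deg D (fun x => v (ovw K a x)))
    (J : Finset (Fin N)) (hJ : ∀ j ∈ J, j ∉ K) {θ μ : ℝ} (hθ : 0 ≤ θ) (hμ : 0 ≤ μ)
    (hμθ : 4 * 9 ^ D * D * θ ≤ μ ^ 4)
    (hlight : ∀ j ∈ J, dif2 K a v j ≤ θ * avgR K a (fun x => ‖v x‖ ^ 2)) :
    avgR K a (fun x => mx J v x * (2 * ‖v x‖ + mx J v x)) ≤
      (2 * μ + μ ^ 2) * avgR K a (fun x => ‖v x‖ ^ 2) := by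
  set τ := avgR K a (fun x => ‖v x‖ ^ 2) with hτ
  have hτ0 : 0 ≤ τ := avgR_nonneg fun x => by positivity
  have hd0 : ∀ j, 0 ≤ dif2 K a v j := fun j => avgR_nonneg fun x => by positivity
  have h1 : avgR K a (fun x => (mx J v x ^ 2) ^ 2) ≤ (μ ^ 2 * τ) ^ 2 := by
    simp only [mx_pow4]
    rw [avgR_sum]
    calc ∑ j ∈ J, avgR K a (fun x => ‖v x - v (flip j x)‖ ^ 4)
        ≤ ∑ j ∈ J, 9 ^ D * (dif2 K a v j) ^ 2 :=
          Finset.sum_le_sum fun j hj => dif4_le (hJ j hj) a hD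
      _ ≤ ∑ j ∈ J, 9 ^ D * (θ * τ * dif2 K a v j) := by
          apply Finset.sum_le_sum
          intro j hj
          have := hlight j hj
          rw [sq]
          have h3 := mul_le_mul_of_nonneg_right this (hd0 j)
          exact mul_le_mul_of_nonneg_left h3 (by positivity)
      _ = 9 ^ D * (θ * τ) * ∑ j ∈ J, dif2 K a v j := by
          rw [Finset.mul_sum]
          apply Finset.sum_congr rfl; intro j _; ring
      _ ≤ 9 ^ D * (θ * τ) * (4 * D * τ) :=
          mul_le_mul_of_nonneg_left (sum_dif2_le a hD J hJ) (by positivity)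
      _ = (4 * 9 ^ D * D * θ) * τ ^ 2 := by ring
      _ ≤ μ ^ 4 * τ ^ 2 := mul_le_mul_of_nonneg_right hμθ (by positivity)
      _ = (μ ^ 2 * τ) ^ 2 := by ring
  have h2 : avgR K a (fun x => mx J v x ^ 2) ≤ μ ^ 2 * τ := by
    apply le_of_sq_le_sq _ (by positivity)
    exact (avg_sq_le (fun x => mx J v (ovw K a x) ^ 2)).trans h1
  have h3 : avgR K a (fun x => mx J v x * ‖v x‖) ≤ μ * τ := by
    apply le_of_sq_le_sq _ (by positivity)
    calc (avgR K a (fun x => mx J v x * ‖v x‖)) ^ 2 ≤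
        avgR K a (fun x => mx J v x ^ 2) * avgR K a (fun x => ‖v x‖ ^ 2) :=
          avg_mul_sq_le (fun x => mx J v (ovw K a x)) (fun x => ‖v (ovw K a x)‖)
      _ ≤ (μ ^ 2 * τ) * τ := mul_le_mul_of_nonneg_right h2 hτ0
      _ = (μ * τ) ^ 2 := by ring
  have h4 : avgR K a (fun x => mx J v x * (2 * ‖v x‖ + mx J v x)) =
      2 * avgR K a (fun x => mx J v x * ‖v x‖) + avgR K a (fun x => mx J v x ^ 2) := by
    unfold avgR
    rw [← avg_const_mul, ← avg_add]
    congr 1
    funext x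
    ring
  rw [h4]
  nlinarith

/-- a bound for the largest difference over light coordinates -/
def LightBound (v : (Fin N → Bool) → E) (θ μ : ℝ) : Prop :=
  ∀ (K : Finset (Fin N)) (a : Fin N → Bool) (J : Finset (Fin N)), (∀ j ∈ J, j ∉ K) →
    (∀ j ∈ J, dif2 K a v j ≤ θ * avgR K a (fun x => ‖v x‖ ^ 2)) →
    ∃ M : (Fin N → Bool) → ℝ, (∀ x, 0 ≤ M x) ∧
      (∀ j ∈ J, ∀ x, ‖v (ovw K a x) - v (flip j (ovw K a x))‖ ≤ M (ovw K a x)) ∧
      avgR K a (fun x => M x * (2 * ‖v x‖ + M x)) ≤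
        (2 * μ + μ ^ 2) * avgR K a (fun x => ‖v x‖ ^ 2)

/-- general degree: by hypercontractivity -/
lemma lightBound_of_deg {D : ℕ} {v : (Fin N → Bool) → E}
    (hdeg : ∀ (K : Finset (Fin N)) (a : Fin N → Bool), Deg D (fun x => v (ovw K a x)))
    {θ μ : ℝ} (hθ : 0 ≤ θ) (hμ : 0 ≤ μ) (hμθ : 4 * 9 ^ D * D * θ ≤ μ ^ 4) :
    LightBound v θ μ := by
  intro K a J hJ hlight
  exact ⟨mx J v, fun x => mx_nonneg J v x, fun j hj x => le_mx hj v _,
    light_err a (hdeg K a) J hJ hθ hμ hμθ hlight⟩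

/-- degree one: the differences have constant norm -/
lemma lightBound_of_deg_one {v : (Fin N → Bool) → E}
    (hdeg : ∀ (K : Finset (Fin N)) (a : Fin N → Bool), Deg 1 (fun x => v (ovw K a x)))
    {θ μ : ℝ} (hθ : 0 ≤ θ) (hμ : 0 ≤ μ) (hμθ : θ ≤ μ ^ 2) :
    LightBound v θ μ := by
  intro K a J hJ hlight
  set τ := avgR K a (fun x => ‖v x‖ ^ 2) with hτ
  have hτ0 : 0 ≤ τ := avgR_nonneg fun x => by positivity
  refine ⟨fun _ => μ * Real.sqrt τ, fun _ => by positivity, ?_, ?_⟩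
  · intro j hj x
    have h1 : ∀ y, ‖v (ovw K a y) - v (flip j (ovw K a y))‖ =
        ‖v (ovw K a x) - v (flip j (ovw K a x))‖ := by
      intro y
      have h2 := hdeg K a j
      have h3 : pd j (fun x => v (ovw K a x)) y = pd j (fun x => v (ovw K a x)) x :=
        vconst_of_flip h2 y x
      have h4 := congrArg norm h3
      rw [norm_pd, norm_pd] at h4
      simp only [ovw_flip (hJ j hj)] at h4
      linarith
    have h5 : dif2 K a v j = ‖v (ovw K a x) - v (flip j (ovw K a x))‖ ^ 2 := by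
      unfold dif2 avgR
      simp only [h1]
      exact avg_const _
    have h6 := hlight j hj
    rw [h5] at h6
    apply le_of_sq_le_sq _ (by positivity)
    calc ‖v (ovw K a x) - v (flip j (ovw K a x))‖ ^ 2 ≤ θ * τ := h6
      _ ≤ μ ^ 2 * τ := mul_le_mul_of_nonneg_right hμθ hτ0
      _ = (μ * Real.sqrt τ) ^ 2 := by rw [mul_pow, Real.sq_sqrt hτ0]
  · have h1 : (fun x => μ * Real.sqrt τ * (2 * ‖v x‖ + μ * Real.sqrt τ)) =
        fun x => (2 * μ * Real.sqrt τ) * ‖v x‖ + μ ^ 2 * τ := by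
      funext x
      have := Real.sq_sqrt hτ0
      nlinarith
    have h2 : avgR K a (fun x => ‖v x‖) ≤ Real.sqrt τ := by
      apply Real.le_sqrt_of_sq_le
      exact avg_sq_le (fun x => ‖v (ovw K a x)‖)
    have h3 : avgR K a (fun x => (2 * μ * Real.sqrt τ) * ‖v x‖ + μ ^ 2 * τ) =
        (2 * μ * Real.sqrt τ) * avgR K a (fun x => ‖v x‖) + μ ^ 2 * τ := by
      unfold avgR
      rw [avg_add, avg_const_mul, avg_const]
    rw [h1, h3]
    have h4 := mul_le_mul_of_nonneg_left h2 (by positivity : (0 : ℝ) ≤ 2 * μ * Real.sqrt τ)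
    have h5 : 2 * μ * Real.sqrt τ * Real.sqrt τ = 2 * μ * τ := by
      rw [mul_assoc, Real.mul_self_sqrt hτ0]
    nlinarith

/-- **One segment.** -/
theorem seg_step {D : ℕ} {v : (Fin N → Bool) → E}
    (hdeg : ∀ (K : Finset (Fin N)) (a : Fin N → Bool), Deg D (fun x => v (ovw K a x)))
    (R : Submodule ℂ E) (hvR : ∀ x, v x ∈ R) (g : (Fin N → Bool) → ℝ)
    (F : (Fin N → Bool) → (E →L[ℂ] E)) (t : Fin N → (Fin N → Bool) → ℝ) (L : ℝ)
    (hG : ∀ j x, ∀ u ∈ R, ∀ w ∈ R,
      ‖⟪u, ((g x : ℝ) : ℂ) • F x w⟫_ℂ - ⟪u, ((g (flip j x) : ℝ) : ℂ) • F (flip j x) w⟫_ℂ‖ ≤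
        ‖u‖ * ‖w‖ * (t j x + t j (flip j x)))
    (ht : ∀ j x, 0 ≤ t j x) (hL0 : 0 ≤ L) (hL : ∀ x, ∑ j, t j x ≤ L)
    {θ μ : ℝ} (hlb : LightBound v θ μ)
    (P1 : ℕ) (hP1 : ∀ n : ℕ, (n : ℝ) * θ ≤ 4 * D → n ≤ P1)
    (K : Finset (Fin N)) (a : Fin N → Bool) (c : ℝ)
    (IH : ∀ (K' : Finset (Fin N)) (b : Fin N → Bool), K'.card ≤ K.card + P1 → ∀ w : E,
      |avgR K' b (fun x => g x * RCLike.re ⟪w, F x w⟫_ℂ)| ≤ c * ‖w‖ ^ 2) :
    |avgR K a (fun x => g x * RCLike.re ⟪v x, F x (v x)⟫_ℂ)| ≤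
      (c + L / 2 * (2 * μ + μ ^ 2)) * avgR K a (fun x => ‖v x‖ ^ 2) := by
  classical
  set τ := avgR K a (fun x => ‖v x‖ ^ 2) with hτ
  have hτ0 : 0 ≤ τ := avgR_nonneg fun x => by positivity
  have hd0 : ∀ j, 0 ≤ dif2 K a v j := fun j => avgR_nonneg fun x => by positivity
  -- the revealed coordinates
  set R1 : Finset (Fin N) := univ.filter (fun j => j ∉ K ∧ θ * τ < dif2 K a v j) with hR1
  have hR1K : ∀ j ∈ R1, j ∉ K := fun j hj => (Finset.mem_filter.mp hj).2.1
  have hsum := sum_dif2_le a (hdeg K a) R1 hR1K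
  have hcard : R1.card ≤ P1 := by
    apply hP1
    rcases hτ0.eq_or_lt with h0 | hpos
    · have hempty : R1 = ∅ := by
        rw [Finset.eq_empty_iff_forall_notMem]
        intro j hj
        have h1 : dif2 K a v j ≤ ∑ j ∈ R1, dif2 K a v j :=
          Finset.single_le_sum (f := fun j => dif2 K a v j) (fun i _ => hd0 i) hj
        have h2 := (Finset.mem_filter.mp hj).2.2
        rw [← hτ, ← h0] at hsum
        rw [← h0] at h2
        linarith
      rw [hempty]
      simp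
    · have h1 : (R1.card : ℝ) * (θ * τ) ≤ ∑ j ∈ R1, dif2 K a v j := by
        rw [← nsmul_eq_mul]
        exact Finset.card_nsmul_le_sum _ _ _ fun j hj => (Finset.mem_filter.mp hj).2.2.le
      have h2 : (R1.card : ℝ) * θ * τ ≤ 4 * D * τ := by
        rw [← hτ] at hsum
        calc (R1.card : ℝ) * θ * τ = (R1.card : ℝ) * (θ * τ) := by ring
          _ ≤ _ := h1.trans hsum
      exact le_of_mul_le_mul_right h2 hpos
  set K' := K ∪ R1 with hK'
  have hKK' : K ⊆ K' := Finset.subset_union_left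
  have hK'card : K'.card ≤ K.card + P1 :=
    (Finset.card_union_le _ _).trans (Nat.add_le_add_left hcard _)
  set J : Finset (Fin N) := univ \ K' with hJ
  have hJK : ∀ j ∈ J, j ∉ K := fun j hj h => (Finset.mem_sdiff.mp hj).2 (hKK' h)
  have hlight : ∀ j ∈ J, dif2 K a v j ≤ θ * τ := by
    intro j hj
    by_contra hcon
    push Not at hcon
    apply (Finset.mem_sdiff.mp hj).2
    rw [hK', Finset.mem_union]
    right
    rw [hR1, Finset.mem_filter]
    exact ⟨Finset.mem_univ _, hJK j hj, hcon⟩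
  obtain ⟨M, hM0, hMJ, herr⟩ := hlb K a J hJK hlight
  -- decoupling on each small cube
  have hcube : ∀ y0 : Fin N → Bool,
      |avgR K' (ovw K a y0) (fun x => g x * RCLike.re ⟪v x, F x (v x)⟫_ℂ)| ≤
        c * avgR K' (ovw K a y0) (fun x => ‖v x‖ ^ 2) +
          L / 2 * avgR K' (ovw K a y0) (fun x => M x * (2 * ‖v x‖ + M x)) := by
    intro y0
    set b := ovw K a y0 with hb
    have hre : ∀ (z : Fin N → Bool) (w : E),
        RCLike.re ⟪w, (((g z : ℝ) : ℂ) • F z) w⟫_ℂ = g z * RCLike.re ⟪w, F z w⟫_ℂ := by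
      intro z w
      rw [_root_.smul_apply, inner_smul_right]
      simp
    have key := decouple R (fun x => v (ovw K' b x)) (fun x => hvR _)
      (fun x => ((g (ovw K' b x) : ℝ) : ℂ) • F (ovw K' b x)) (fun j x => t j (ovw K' b x)) L
      (fun x => M (ovw K' b x)) ?_ (fun j x => ht j _) (fun x => hL _) ?_
      (fun x => hM0 _)
    · simp only [hre] at key
      have h2 : |avg2 (fun x y => g (ovw K' b x) *
          RCLike.re ⟪v (ovw K' b y), F (ovw K' b x) (v (ovw K' b y))⟫_ℂ)| ≤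
          c * avgR K' b (fun x => ‖v x‖ ^ 2) := by
        rw [avg2_comm]
        unfold avg2
        refine (avg_abs_le _).trans ?_
        unfold avgR
        rw [← avg_const_mul]
        apply avg_mono
        intro y
        exact IH K' b hK'card (v (ovw K' b y))
      have h3 : ∀ A B e f : ℝ, |A - B| ≤ e → |B| ≤ f → |A| ≤ f + e := by
        intro A B e f h1 h2
        calc |A| = |B + (A - B)| := by congr 1; ring
          _ ≤ |B| + |A - B| := abs_add_le _ _
          _ ≤ _ := add_le_add h2 h1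
      exact h3 _ _ _ _ key h2
    · intro j x u hu w hw
      by_cases hj : j ∈ K'
      · beta_reduce
        rw [ovw_flip_mem hj, sub_self, norm_zero]
        have := ht j (ovw K' b x)
        positivity
      · beta_reduce
        rw [ovw_flip hj]
        exact hG j _ u hu w hw
    · intro j x
      by_cases hj : j ∈ K'
      · beta_reduce
        rw [ovw_flip_mem hj, sub_self, norm_zero]
        exact hM0 _
      · beta_reduce
        rw [ovw_flip hj, hb, ovw_ovw K a x y0 K' hKK']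
        exact hMJ j (Finset.mem_sdiff.mpr ⟨Finset.mem_univ _, hj⟩) _
  -- average over the revealed values
  rw [← avgR_tower hKK' a (fun x => g x * RCLike.re ⟪v x, F x (v x)⟫_ℂ)]
  refine (avg_abs_le _).trans ((avg_mono fun y => hcube y).trans ?_)
  rw [avg_add, avg_const_mul, avg_const_mul, avgR_tower hKK', avgR_tower hKK']
  have hL2 : 0 ≤ L / 2 := by linarith
  have h5 := mul_le_mul_of_nonneg_left herr hL2
  rw [← hτ] at h5 ⊢
  linarith

end

end Pool.Agent.H.MP_58d537_lc.Mem
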