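import Pool.Agent.H.MP_58d537_lc.Mem.Bridge
import Pool.Agent.H.MP_58d537_lc.Mem.Step

/-!
# The induction over the segments
-/

set_option autoImplicit false

open Finset
open scoped InnerProductSpace

namespace Pool.Agent.H.MP_58d537_lc.Mem

open Pool.Agent.H.MP_58d537_lc

noncomputable section

variable {N m D d : ℕ}

/-- the Hilbert space -/
abbrev HS (N m : ℕ) : Type := EuclideanSpace ℂ (Reg N m)

/-- the unitaries of a segment -/
def Wseq (U : Fin (D + 1) → Matrix.unitaryGroup (Reg N m) ℂ) (t : ℕ) : HS N m →L[ℂ] HS N m :=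
  if h : t < D + 1 then mE (U ⟨t, h⟩).1 else ContinuousLinearMap.id ℂ _

lemma norm_Wseq (U : Fin (D + 1) → Matrix.unitaryGroup (Reg N m) ℂ) (t : ℕ) (u : HS N m) :
    ‖Wseq U t u‖ = ‖u‖ := by
  unfold Wseq
  split_ifs
  · exact norm_mE_unitary _ _
  · rfl

lemma mE_coherent_aux (U : Fin (D + 1) → Matrix.unitaryGroup (Reg N m) ℂ) (x : Fin N → Bool)
    (t : ℕ) (ht : t ≤ D) :
    mE ((List.ofFn (fun j : Fin t => (U (Fin.succ (Fin.castLE ht j))).1 *
        oracle x)).reverse.prod * (U 0).1) = cK (qo N m) (Wseq U) x t := by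
  induction t with
  | zero =>
    simp only [List.ofFn_zero, List.reverse_nil, List.prod_nil, one_mul, cK, Wseq]
    rw [dif_pos (Nat.succ_pos D)]
    rfl
  | succ t ih =>
    have ih' := ih (Nat.le_of_succ_le ht)
    rw [List.ofFn_succ', List.concat_eq_append, List.reverse_append, List.reverse_singleton,
      List.prod_append, List.prod_singleton]
    have e1 : (fun i : Fin t => (U (Fin.succ (Fin.castLE ht i.castSucc))).1 * oracle x) =
        fun j : Fin t =>
          (U (Fin.succ (Fin.castLE (Nat.le_of_succ_le ht) j))).1 * oracle x := by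
      funext i; rfl
    rw [e1, mul_assoc, mul_assoc, mE_mul, mE_mul, ih']
    have hlt : t + 1 < D + 1 := Nat.succ_lt_succ ht
    have e3 : Wseq U (t + 1) = mE (U (Fin.succ (Fin.castLE ht (Fin.last t)))).1 := by
      unfold Wseq
      rw [dif_pos hlt]
      rfl
    simp only [cK, e3]
    rfl

lemma mE_coherent (U : Fin (D + 1) → Matrix.unitaryGroup (Reg N m) ℂ) (x : Fin N → Bool) :
    mE (coherent U x) = cK (qo N m) (Wseq U) x D :=
  mE_coherent_aux U x D le_rfl

/-- the acceptance operator -/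
def FA : {T : ℕ} → Alg N m D d T → (Fin N → Bool) → (HS N m →L[ℂ] HS N m)
  | _, .output b, _ => if b then ContinuousLinearMap.id ℂ _ else 0
  | _, .segment U _ M _ _ next, x => (ContinuousLinearMap.adjoint (mE (coherent U x))).comp
      ((∑ ω, (ContinuousLinearMap.adjoint (mE (M ω))).comp
        ((FA (next ω) x).comp (mE (M ω)))).comp (mE (coherent U x)))

lemma smooth_FA {T : ℕ} (A : Alg N m D d T) : Smooth (2 * D * T) (FA A) := by
  induction A with
  | output b =>
    have h := Smooth.const (N := N) (E := HS N m) b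
    simpa [FA] using h
  | @segment T U Ω M complete small next ih =>
    have h1 : Smooth (2 * D * T : ℝ) (fun x => ∑ ω, (ContinuousLinearMap.adjoint (mE (M ω))).comp
        ((FA (next ω) x).comp (mE (M ω)))) :=
      Smooth.meas (fun ω => mE (M ω)) (fun w => (sum_norm_sq_mE M complete w).le)
        (by positivity) ih
    have h2 := smooth_cK (qo N m) (Wseq U) (norm_Wseq U) D (2 * D * T) (by positivity) _ h1
    have e1 : (2 * D * T : ℝ) + 2 * D = 2 * D * ((T + 1 : ℕ) : ℝ) := by push_cast; ring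
    rw [e1] at h2
    simp only [← mE_coherent] at h2
    exact h2

/-- the vector after the segment and the outcome `ω` -/
def vOut (U : Fin (D + 1) → Matrix.unitaryGroup (Reg N m) ℂ) (M : Matrix (Reg N m) (Reg N m) ℂ)
    (w : HS N m) (x : Fin N → Bool) : HS N m := mE M (mE (coherent U x) w)

lemma inner_FA_segment {T : ℕ} (U : Fin (D + 1) → Matrix.unitaryGroup (Reg N m) ℂ) (Ω : ℕ)
    (M : Fin Ω → Matrix (Reg N m) (Reg N m) ℂ)
    (complete : ∑ ω, (M ω).conjTranspose * M ω = 1) (small : ∀ ω, (M ω).rank ≤ d)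
    (next : Fin Ω → Alg N m D d T) (x : Fin N → Bool) (w : HS N m) :
    RCLike.re ⟪w, FA (Alg.segment U Ω M complete small next) x w⟫_ℂ =
      ∑ ω, RCLike.re ⟪vOut U (M ω) w x, FA (next ω) x (vOut U (M ω) w x)⟫_ℂ := by
  simp only [FA, vOut, ContinuousLinearMap.comp_apply, ContinuousLinearMap.adjoint_inner_right,
    _root_.sum_apply, inner_sum, map_sum]

lemma accept_eq {T : ℕ} (A : Alg N m D d T) (x : Fin N → Bool) (ψ : Reg N m → ℂ) :
    A.accept x ψ = RCLike.re ⟪(WithLp.toLp 2 ψ : HS N m), FA A x (WithLp.toLp 2 ψ)⟫_ℂ := by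
  induction A generalizing ψ with
  | output b =>
    cases b
    · simp [Alg.accept, FA]
    · simp only [Alg.accept, FA, if_true, ContinuousLinearMap.id_apply]
      rw [inner_self_eq_norm_sq, EuclideanSpace.norm_sq_eq]
  | @segment T U Ω M complete small next ih =>
    rw [inner_FA_segment]
    simp only [Alg.accept]
    apply Finset.sum_congr rfl
    intro ω _
    rw [ih ω]
    unfold vOut
    rw [mE_toLp, mE_toLp]

lemma sum_norm_vOut (U : Fin (D + 1) → Matrix.unitaryGroup (Reg N m) ℂ) {Ω : ℕ}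
    (M : Fin Ω → Matrix (Reg N m) (Reg N m) ℂ)
    (complete : ∑ ω, (M ω).conjTranspose * M ω = 1) (w : HS N m) (x : Fin N → Bool) :
    ∑ ω, ‖vOut U (M ω) w x‖ ^ 2 = ‖w‖ ^ 2 := by
  unfold vOut
  rw [sum_norm_sq_mE M complete, mE_coherent, norm_cK _ _ (norm_Wseq U)]

lemma deg_vOut (U : Fin (D + 1) → Matrix.unitaryGroup (Reg N m) ℂ)
    (M : Matrix (Reg N m) (Reg N m) ℂ) (w : HS N m) (K : Finset (Fin N)) (a : Fin N → Bool) :
    Deg D (fun x => vOut U M w (ovw K a x)) := by
  unfold vOut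
  simp only [mE_coherent]
  exact (deg_cK (qo N m) (fun j z u => qo_PO j z u) (Wseq U) K a w D).lin (mE M)

/-- **The induction.** -/
theorem claim (g : (Fin N → Bool) → ℝ) (s : Fin N → (Fin N → Bool) → ℝ) (Lg : ℝ)
    (hg1 : ∀ x, |g x| ≤ 1) (hgs : ∀ j x, |g x - g (flip j x)| ≤ s j x + s j (flip j x))
    (hs0 : ∀ j x, 0 ≤ s j x) (hLg0 : 0 ≤ Lg) (hsL : ∀ x, ∑ j, s j x ≤ Lg) (Λ : ℝ) (hΛ : 0 ≤ Λ)
    {θ μ : ℝ} (hlb : ∀ v : (Fin N → Bool) → HS N m,
      (∀ (K : Finset (Fin N)) (a : Fin N → Bool), Deg D (fun x => v (ovw K a x))) →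
      LightBound v θ μ)
    (P1 : ℕ) (hP1 : ∀ n : ℕ, (n : ℝ) * θ ≤ 4 * D → n ≤ P1) (κ : ℝ)
    (hκ : (Lg + Λ * d) / 2 * (2 * μ + μ ^ 2) ≤ κ) (η : ℝ) (hη : 0 ≤ η) {T : ℕ}
    (A : Alg N m D d T) : 2 * D * T ≤ Λ → ∀ (K : Finset (Fin N)) (a : Fin N → Bool),
    (∀ (S : Finset (Fin N)) (b : Fin N → Bool), S.card ≤ K.card + T * P1 →
      |avgR S b g| ≤ η) → ∀ w : HS N m,
    |avgR K a (fun x => g x * RCLike.re ⟪w, FA A x w⟫_ℂ)| ≤ (η + T * κ) * ‖w‖ ^ 2 := by
  induction A with
  | output b =>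
    intro _ K a hS w
    have h1 := hS K a (by simp)
    cases b
    · simp only [FA, Bool.false_eq_true, if_false]
      have : (fun x => g x * RCLike.re ⟪w, (0 : HS N m →L[ℂ] HS N m) w⟫_ℂ) =
          fun _ => (0 : ℝ) := by
        funext x; simp
      rw [this, avgR_const]
      simp only [abs_zero, Nat.cast_zero, zero_mul, add_zero]
      positivity
    · simp only [FA, if_true, ContinuousLinearMap.id_apply, Nat.cast_zero, zero_mul, add_zero]
      have h2 : RCLike.re ⟪w, w⟫_ℂ = ‖w‖ ^ 2 := inner_self_eq_norm_sq w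
      rw [h2]
      have h3 : avgR K a (fun x => g x * ‖w‖ ^ 2) = ‖w‖ ^ 2 * avgR K a g := by
        unfold avgR
        rw [← avg_const_mul]
        congr 1
        funext x
        ring
      rw [h3, abs_mul, abs_of_nonneg (by positivity), mul_comm]
      exact mul_le_mul_of_nonneg_right h1 (by positivity)
  | @segment T U Ω M complete small next ih =>
    intro hTΛ K a hS w
    have hTΛ' : 2 * (D : ℝ) * T ≤ Λ := by
      have : 2 * (D : ℝ) * T ≤ 2 * D * ((T + 1 : ℕ) : ℝ) := by
        push_cast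
        have : (0 : ℝ) ≤ 2 * D := by positivity
        nlinarith
      exact this.trans hTΛ
    have e1 : (fun x => g x * RCLike.re ⟪w, FA (Alg.segment U Ω M complete small next) x w⟫_ℂ) =
        fun x => ∑ ω, g x * RCLike.re ⟪vOut U (M ω) w x, FA (next ω) x (vOut U (M ω) w x)⟫_ℂ := by
      funext x
      rw [inner_FA_segment, Finset.mul_sum]
    rw [e1, avgR_sum]
    have hω : ∀ ω, |avgR K a (fun x => g x *
        RCLike.re ⟪vOut U (M ω) w x, FA (next ω) x (vOut U (M ω) w x)⟫_ℂ)| ≤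
        (η + T * κ + κ) * avgR K a (fun x => ‖vOut U (M ω) w x‖ ^ 2) := by
      intro ω
      have hsm := smooth_FA (next ω)
      set R : Submodule ℂ (HS N m) := LinearMap.range (mE (M ω)).toLinearMap with hR
      obtain ⟨t, ht0, htL, htG⟩ := hsm.trace (by positivity) R d
        ((finrank_range_mE (M ω)).le.trans (small ω))
      have key := seg_step (D := D) (v := vOut U (M ω) w) (deg_vOut U (M ω) w) R
        (fun x => ⟨_, rfl⟩) g (FA (next ω)) (fun j x => s j x + t j x) (Lg + Λ * d) ?_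
        (fun j x => add_nonneg (hs0 j x) (ht0 j x)) (by positivity) ?_
        (hlb _ (deg_vOut U (M ω) w)) P1 hP1 K a (η + T * κ) ?_
      · refine key.trans ?_
        apply mul_le_mul_of_nonneg_right _ (avgR_nonneg fun x => by positivity)
        linarith
      · intro j x u hu v hv
        have h1 := htG j x u hu v hv
        have h2 : ⟪u, ((g x : ℝ) : ℂ) • FA (next ω) x v⟫_ℂ -
            ⟪u, ((g (flip j x) : ℝ) : ℂ) • FA (next ω) (flip j x) v⟫_ℂ =
            ((g x - g (flip j x) : ℝ) : ℂ) * ⟪u, FA (next ω) x v⟫_ℂ +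
            ((g (flip j x) : ℝ) : ℂ) * (⟪u, FA (next ω) x v⟫_ℂ -
              ⟪u, FA (next ω) (flip j x) v⟫_ℂ) := by
          rw [inner_smul_right, inner_smul_right]
          push_cast
          ring
        rw [h2]
        have h3 : ‖⟪u, FA (next ω) x v⟫_ℂ‖ ≤ ‖u‖ * ‖v‖ :=
          (norm_inner_le_norm _ _).trans
            (mul_le_mul_of_nonneg_left (hsm.bdd x v) (norm_nonneg _))
        calc _ ≤ |g x - g (flip j x)| * ‖⟪u, FA (next ω) x v⟫_ℂ‖ +
              |g (flip j x)| * ‖⟪u, FA (next ω) x v⟫_ℂ - ⟪u, FA (next ω) (flip j x) v⟫_ℂ‖ := by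
              refine (norm_add_le _ _).trans ?_
              rw [norm_mul, norm_mul, Complex.norm_real, Complex.norm_real, Real.norm_eq_abs,
                Real.norm_eq_abs]
          _ ≤ (s j x + s j (flip j x)) * (‖u‖ * ‖v‖) +
              1 * (‖u‖ * ‖v‖ * (t j x + t j (flip j x))) := by
              gcongr
              · exact add_nonneg (hs0 j x) (hs0 j _)
              · exact hgs j x
              · exact hg1 _
          _ = _ := by ring
      · intro x
        rw [Finset.sum_add_distrib]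
        have h1 := htL x
        have h2 := hsL x
        have h3 : 2 * (D : ℝ) * T * d ≤ Λ * d := mul_le_mul_of_nonneg_right hTΛ' (by positivity)
        linarith
      · intro K' b hK' w'
        apply ih ω hTΛ' K' b _ w'
        intro S b' hcard
        apply hS S b'
        calc S.card ≤ K'.card + T * P1 := hcard
          _ ≤ (K.card + P1) + T * P1 := Nat.add_le_add_right hK' _
          _ = K.card + (T + 1) * P1 := by ring
    calc |∑ ω, avgR K a (fun x => g x *
        RCLike.re ⟪vOut U (M ω) w x, FA (next ω) x (vOut U (M ω) w x)⟫_ℂ)| ≤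
        ∑ ω, (η + T * κ + κ) * avgR K a (fun x => ‖vOut U (M ω) w x‖ ^ 2) :=
          (Finset.abs_sum_le_sum_abs _ _).trans (Finset.sum_le_sum fun ω _ => hω ω)
      _ = (η + T * κ + κ) * ‖w‖ ^ 2 := by
          rw [← Finset.mul_sum, ← avgR_sum]
          simp only [sum_norm_vOut U M complete w]
          rw [avgR_const]
      _ = _ := by push_cast; ring

/-- the acceptance probability is between `0` and `1` and smooth -/
lemma accept_bounds {T : ℕ} (A : Alg N m D d T) (ψ : Reg N m → ℂ)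
    (hψ : ‖(WithLp.toLp 2 ψ : HS N m)‖ = 1) :
    (∀ x, 0 ≤ A.accept x ψ) ∧ (∀ x, A.accept x ψ ≤ 1) ∧
    ∃ s : Fin N → (Fin N → Bool) → ℝ, (∀ j x, 0 ≤ s j x) ∧ (∀ x, ∑ j, s j x ≤ 2 * D * T) ∧
      ∀ j x, |A.accept x ψ - A.accept (flip j x) ψ| ≤ s j x + s j (flip j x) := by
  refine ⟨?_, ?_, ?_⟩
  · intro x
    clear hψ
    induction A generalizing ψ with
    | output b => cases b <;> simp [Alg.accept]; positivity
    | segment U Ω M complete small next ih =>
      simp only [Alg.accept]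
      exact Finset.sum_nonneg fun ω _ => ih ω _
  · intro x
    rw [accept_eq]
    have h1 := (smooth_FA A).bdd x (WithLp.toLp 2 ψ)
    calc RCLike.re ⟪(WithLp.toLp 2 ψ : HS N m), FA A x (WithLp.toLp 2 ψ)⟫_ℂ
        ≤ ‖(WithLp.toLp 2 ψ : HS N m)‖ * ‖FA A x (WithLp.toLp 2 ψ)‖ :=
          (RCLike.re_le_norm _).trans (norm_inner_le_norm _ _)
      _ ≤ 1 * 1 := by
          rw [hψ] at h1 ⊢
          gcongr
      _ = 1 := one_mul 1
  · obtain ⟨q, hq1, hq2, hq3⟩ := (smooth_FA A).ex
    refine ⟨fun j x => q j x (WithLp.toLp 2 ψ), fun j x => (hq1 j x).nonneg _, ?_, ?_⟩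
    · intro x
      have := hq2 x (WithLp.toLp 2 ψ)
      rw [hψ] at this
      linarith
    · intro j x
      rw [accept_eq, accept_eq, ← map_sub]
      refine (RCLike.abs_re_le_norm _).trans ((hq3 j x _ _).trans (le_of_eq ?_))
      ring

/-- **Bit fixing**, with parameters. -/
theorem main_bound {T : ℕ} (A : Alg N m D d T) (ψ : Reg N m → ℂ)
    (hψ : ‖(WithLp.toLp 2 ψ : HS N m)‖ = 1) {θ μ : ℝ}
    (hlb : ∀ v : (Fin N → Bool) → HS N m,
      (∀ (K : Finset (Fin N)) (a : Fin N → Bool), Deg D (fun x => v (ovw K a x))) →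
      LightBound v θ μ)
    (P1 : ℕ) (hP1 : ∀ n : ℕ, (n : ℝ) * θ ≤ 4 * D → n ≤ P1) :
    ∃ (S : Finset (Fin N)) (a : Fin N → Bool), S.card ≤ T * P1 ∧
      var (fun x => A.accept x ψ) - T * (D * T * (1 + d) * (2 * μ + μ ^ 2)) ≤
        |avgR S a (fun x => A.accept x ψ) - avg (fun x => A.accept x ψ)| := by
  classical
  obtain ⟨h0, h1, s, hs0, hsL, hs⟩ := accept_bounds A ψ hψ
  set f : (Fin N → Bool) → ℝ := fun x => A.accept x ψ with hf
  set e := avg f with he
  have he0 : 0 ≤ e := avg_nonneg h0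
  have he1 : e ≤ 1 := by
    have := avg_mono (f := f) (g := fun _ => 1) h1
    rwa [avg_const] at this
  set g : (Fin N → Bool) → ℝ := fun x => f x - e with hg
  have hg1 : ∀ x, |g x| ≤ 1 := by
    intro x
    rw [abs_le]
    have a1 := h0 x
    have a2 := h1 x
    simp only [hg, hf]
    constructor <;> linarith
  have hgs : ∀ j x, |g x - g (flip j x)| ≤ s j x + s j (flip j x) := by
    intro j x
    have : g x - g (flip j x) = f x - f (flip j x) := by simp only [hg]; ring
    rw [this]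
    exact hs j x
  -- the best bit-fixing source
  obtain ⟨⟨S, a⟩, hSa, hmax⟩ := Finset.exists_max_image
    (univ.filter (fun p : Finset (Fin N) × (Fin N → Bool) => p.1.card ≤ T * P1))
    (fun p => |avgR p.1 p.2 g|) ⟨(∅, fun _ => true), by simp⟩
  have hScard : S.card ≤ T * P1 := (Finset.mem_filter.mp hSa).2
  refine ⟨S, a, hScard, ?_⟩
  set η := |avgR S a g| with hη
  have key := claim g s (2 * D * T) hg1 hgs hs0 (by positivity) hsL (2 * D * T) (by positivity)
    hlb P1 hP1 (D * T * (1 + d) * (2 * μ + μ ^ 2)) (le_of_eq (by ring)) η (abs_nonneg _) A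
    le_rfl ∅ (fun _ => true) (by
      intro S' b hS'
      have := hmax (S', b) (by simpa using hS')
      exact this) (WithLp.toLp 2 ψ)
  have e1 : avgR ∅ (fun _ => true) (fun x => g x *
      RCLike.re ⟪(WithLp.toLp 2 ψ : HS N m), FA A x (WithLp.toLp 2 ψ)⟫_ℂ) = var f := by
    rw [avgR_empty]
    have e2 : (fun x => g x *
        RCLike.re ⟪(WithLp.toLp 2 ψ : HS N m), FA A x (WithLp.toLp 2 ψ)⟫_ℂ) =
        fun x => f x ^ 2 - e * f x := by
      funext x
      rw [← accept_eq]
      simp only [hg, hf]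
      ring
    rw [e2, avg_sub, avg_const_mul]
    unfold var
    rw [← he]
    ring
  rw [e1, hψ] at key
  have e3 : avgR S a f - e = avgR S a g := by
    have : avgR S a g = avgR S a f - avgR S a (fun _ => e) := by
      unfold avgR
      rw [← avg_sub]
    rw [this, avgR_const]
  rw [e3]
  have h5 := le_abs_self (var f)
  linarith

end

end Pool.Agent.H.MP_58d537_lc.Mem
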