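import Pool.Agent.H.MP_58d537_lc.Cube

/-!
# A path lemma on the cube (Margulis-Russo interpolation)

If every edge of the cube has a weight such that at every vertex the weights of the edges at this
vertex add up to at most `B`, and `h` changes along an edge by at most its weight, then the values
of `h` at the two antipodal points `1` and `0` differ by at most `B`.
-/

set_option autoImplicit false

open Finset

namespace Pool.Agent.H.MP_58d537_lc.Mem

open Pool.Agent.H.MP_58d537_lc

noncomputable section

variable {N : ℕ}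

/-- one factor of the product weight -/
def w1 (r : ℝ) (b : Bool) : ℝ := if b then r else 1 - r

/-- the product weight -/
def wP (r : ℝ) (s : Fin N → Bool) : ℝ := ∏ j, w1 r (s j)

/-- the product weight without the factor `j` -/
def wQ (r : ℝ) (j : Fin N) (s : Fin N → Bool) : ℝ := ∏ i ∈ univ.erase j, w1 r (s i)

lemma w1_nonneg {r : ℝ} (h0 : 0 ≤ r) (h1 : r ≤ 1) (b : Bool) : 0 ≤ w1 r b := by
  unfold w1; split_ifs <;> linarith

lemma wQ_nonneg {r : ℝ} (h0 : 0 ≤ r) (h1 : r ≤ 1) (j : Fin N) (s : Fin N → Bool) :
    0 ≤ wQ r j s := Finset.prod_nonneg fun _ _ => w1_nonneg h0 h1 _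

lemma wP_nonneg {r : ℝ} (h0 : 0 ≤ r) (h1 : r ≤ 1) (s : Fin N → Bool) :
    0 ≤ wP r s := Finset.prod_nonneg fun _ _ => w1_nonneg h0 h1 _

lemma wP_eq (r : ℝ) (j : Fin N) (s : Fin N → Bool) : wP r s = w1 r (s j) * wQ r j s := by
  unfold wP wQ
  rw [Finset.mul_prod_erase _ (fun i => w1 r (s i)) (Finset.mem_univ j)]

lemma wQ_flip (r : ℝ) (j : Fin N) (s : Fin N → Bool) : wQ r j (flip j s) = wQ r j s := by
  unfold wQ
  apply Finset.prod_congr rfl
  intro i hi
  have : i ≠ j := (Finset.mem_erase.mp hi).1
  simp [flip, this]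

lemma wP_add_flip (r : ℝ) (j : Fin N) (s : Fin N → Bool) :
    wP r s + wP r (flip j s) = wQ r j s := by
  rw [wP_eq r j s, wP_eq r j (flip j s), wQ_flip, ← add_mul]
  have : w1 r (s j) + w1 r (flip j s j) = 1 := by
    simp only [flip, Function.update_self]
    cases s j <;> simp [w1]
  rw [this, one_mul]

lemma sum_wP (r : ℝ) : ∑ s : Fin N → Bool, wP r s = 1 := by
  unfold wP
  rw [← Fintype.piFinset_univ, ← Finset.prod_univ_sum]
  simp [w1]

lemma hasDerivAt_w1 (r : ℝ) (b : Bool) :
    HasDerivAt (fun r => w1 r b) (if b then 1 else -1) r := by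
  unfold w1
  cases b
  · simpa using (hasDerivAt_id r).const_sub 1
  · simpa using hasDerivAt_id' r

lemma hasDerivAt_wP (r : ℝ) (s : Fin N → Bool) :
    HasDerivAt (fun r => wP r s) (∑ j, wQ r j s * (if s j then 1 else -1)) r := by
  have := HasDerivAt.fun_finsetProd (u := (univ : Finset (Fin N))) (f := fun j r => w1 r (s j))
    (f' := fun j => if s j then (1 : ℝ) else -1) (x := r) (fun j _ => hasDerivAt_w1 r (s j))
  simpa [wP, wQ, smul_eq_mul] using this

/-- involution sum -/
lemma sum_flip (j : Fin N) (f : (Fin N → Bool) → ℝ) : ∑ s, f (flip j s) = ∑ s, f s :=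
  (flipEquiv j).sum_comp f

/-- **Path lemma**. -/
theorem path_le (h : (Fin N → Bool) → ℝ) (b : Fin N → (Fin N → Bool) → ℝ) (B : ℝ)
    (hb : ∀ j s, b j (flip j s) = b j s) (hh : ∀ j s, |h s - h (flip j s)| ≤ b j s)
    (hB : ∀ s, ∑ j, b j s ≤ B) : |h (fun _ => true) - h (fun _ => false)| ≤ B := by
  set P : ℝ → ℝ := fun r => ∑ s, wP r s * h s with hP
  have hd : ∀ r : ℝ, HasDerivAt P
      (∑ s, (∑ j, wQ r j s * (if s j then 1 else -1)) * h s) r := by
    intro r
    apply HasDerivAt.fun_sum
    intro s _
    exact (hasDerivAt_wP r s).mul_const (h s)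
  have hbd : ∀ r : ℝ, 0 ≤ r → r ≤ 1 →
      |∑ s, (∑ j, wQ r j s * (if s j then (1 : ℝ) else -1)) * h s| ≤ B := by
    intro r h0 h1
    have e1 : ∑ s, (∑ j, wQ r j s * (if s j then (1 : ℝ) else -1)) * h s =
        ∑ j, ∑ s, wQ r j s * (if s j then (1 : ℝ) else -1) * h s := by
      rw [Finset.sum_comm]
      apply Finset.sum_congr rfl
      intro s _
      rw [Finset.sum_mul]
    have e2 : ∀ j : Fin N, 2 * ∑ s, wQ r j s * (if s j then (1 : ℝ) else -1) * h s =
        ∑ s, wQ r j s * (if s j then (1 : ℝ) else -1) * (h s - h (flip j s)) := by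
      intro j
      have := sum_flip j (fun s => wQ r j s * (if s j then (1 : ℝ) else -1) * h s)
      rw [two_mul]
      nth_rewrite 2 [← this]
      rw [← Finset.sum_add_distrib]
      apply Finset.sum_congr rfl
      intro s _
      rw [wQ_flip]
      simp only [flip, Function.update_self]
      cases s j <;> simp <;> ring
    have e3 : ∀ j : Fin N, |∑ s, wQ r j s * (if s j then (1 : ℝ) else -1) * h s| ≤
        ∑ s, wP r s * b j s := by
      intro j
      have h2 : |2 * ∑ s, wQ r j s * (if s j then (1 : ℝ) else -1) * h s| ≤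
          ∑ s, wQ r j s * b j s := by
        rw [e2 j]
        refine (Finset.abs_sum_le_sum_abs _ _).trans (Finset.sum_le_sum fun s _ => ?_)
        rw [abs_mul, abs_mul, abs_of_nonneg (wQ_nonneg h0 h1 j s)]
        have : |(if s j then (1 : ℝ) else -1)| = 1 := by split_ifs <;> simp
        rw [this, mul_one]
        exact mul_le_mul_of_nonneg_left (hh j s) (wQ_nonneg h0 h1 j s)
      have h3 : ∑ s, wQ r j s * b j s = 2 * ∑ s, wP r s * b j s := by
        have := sum_flip j (fun s => wP r s * b j s)
        simp only [hb] at this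
        rw [two_mul]
        nth_rewrite 2 [← this]
        rw [← Finset.sum_add_distrib]
        apply Finset.sum_congr rfl
        intro s _
        rw [← wP_add_flip r j s]
        ring
      rw [h3, abs_mul, abs_of_pos (by norm_num : (0 : ℝ) < 2)] at h2
      linarith
    rw [e1]
    refine (Finset.abs_sum_le_sum_abs _ _).trans ((Finset.sum_le_sum fun j _ => e3 j).trans ?_)
    rw [Finset.sum_comm]
    calc ∑ s, ∑ j, wP r s * b j s = ∑ s, wP r s * ∑ j, b j s := by
          apply Finset.sum_congr rfl; intro s _; rw [Finset.mul_sum]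
      _ ≤ ∑ s : Fin N → Bool, wP r s * B := Finset.sum_le_sum fun s _ =>
          mul_le_mul_of_nonneg_left (hB s) (wP_nonneg h0 h1 s)
      _ = B := by rw [← Finset.sum_mul, sum_wP, one_mul]
  have hmv := Convex.norm_image_sub_le_of_norm_hasDerivWithin_le (f := P)
    (f' := fun r => ∑ s, (∑ j, wQ r j s * (if s j then (1 : ℝ) else -1)) * h s)
    (s := Set.Icc (0 : ℝ) 1) (C := B) (x := 0) (y := 1)
    (fun r _ => (hd r).hasDerivWithinAt) (fun r hr => by
      rw [Real.norm_eq_abs]; exact hbd r hr.1 hr.2)
    (convex_Icc 0 1) (by simp) (by simp)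
  have p1 : P 1 = h (fun _ => true) := by
    simp only [hP]
    rw [Finset.sum_eq_single (fun _ => true)]
    · simp [wP, w1]
    · intro s _ hs
      have : ∃ j, s j = false := by
        by_contra hcon
        push Not at hcon
        apply hs
        funext j
        simpa using hcon j
      obtain ⟨j, hj⟩ := this
      rw [wP_eq 1 j s, hj]
      simp [w1]
    · intro h; exact absurd (Finset.mem_univ _) h
  have p0 : P 0 = h (fun _ => false) := by
    simp only [hP]
    rw [Finset.sum_eq_single (fun _ => false)]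
    · simp [wP, w1]
    · intro s _ hs
      have : ∃ j, s j = true := by
        by_contra hcon
        push Not at hcon
        apply hs
        funext j
        simpa using hcon j
      obtain ⟨j, hj⟩ := this
      rw [wP_eq 0 j s, hj]
      simp [w1]
    · intro h; exact absurd (Finset.mem_univ _) h
  rw [p1, p0, Real.norm_eq_abs] at hmv
  simpa using hmv

end

end Pool.Agent.H.MP_58d537_lc.Mem
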